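import Pool.Agent.SplTgo.Tango
import Pool.Agent.SplPl.Defs

set_option autoImplicit false

/-!
## Theorem B for block processes along a run
-/

namespace Pool.Agent.SplTgo

open Pool.Agent.SplLog Pool.Agent.SplPl Pool.Agent.SplAll

private theorem TU_hole {n m H : ℕ} {X : ℕ → ℕ} (B : BP n m H X) {t : ℕ} (ht : t < m)
    {tau : Finset ℕ} (htau : ∀ s, s ∈ tau ↔ s = 0 ∨ s = n ∨ (s ∈ B.tau t ∧ 0 < s ∧ s < n)) :
    ∀ d s r, s ≤ n → s ∉ tau → r ∈ tau → (s - r) + (r - s) ≤ d →
      (∀ q, (s < q ∧ q < r) ∨ (r < q ∧ q < s) → q ∉ tau) →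
      B.om t s < B.om t r ∧ B.om (t + 1) s < B.om (t + 1) r := by
  intro d
  induction d with
  | zero =>
    intro s r _ h1 h2 h3 _
    have : s = r := by omega
    exact absurd (this ▸ h2) h1
  | succ d ih =>
    intro s r hs h1 h2 h3 h4
    have hs0 : s ≠ 0 := fun h => h1 ((htau s).2 (Or.inl h))
    have hsn : s ≠ n := fun h => h1 ((htau s).2 (Or.inr (Or.inl h)))
    have hst : s ∉ B.tau t := fun h => h1 ((htau s).2 (Or.inr (Or.inr ⟨h, by omega, by omega⟩)))
    have hne : s ≠ r := fun h => h1 (h ▸ h2)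
    obtain ⟨a, b, g1, g2, g3, _, g5, g6, g7, g8, g9⟩ :=
      B.unt t ht s (by omega) (by omega) hst
    have hin : ∀ q, a < q → q < b → q ∉ tau := by
      intro q q1 q2 hq
      rcases (htau q).1 hq with h | h | h
      · omega
      · omega
      · exact (g9 q q1 q2).2.2 h.1
    rcases Nat.lt_or_ge s r with hsr | hsr
    · have hbr : b ≤ r := by
        by_contra hc
        exact hin r (by omega) (by omega) h2
      rcases Nat.eq_or_lt_of_le hbr with rfl | hbr
      · exact ⟨g6, g8⟩
      · have := ih b r g3 (h4 b (Or.inl ⟨g2, hbr⟩)) h2 (by omega) (fun q hq => h4 q (by omega))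
        exact ⟨g6.trans this.1, g8.trans this.2⟩
    · have har : r ≤ a := by
        by_contra hc
        exact hin r (by omega) (by omega) h2
      rcases Nat.eq_or_lt_of_le har with rfl | har
      · exact ⟨g5, g7⟩
      · have := ih a r (by omega) (h4 a (Or.inr ⟨har, g1⟩)) h2 (by omega)
          (fun q hq => h4 q (by omega))
        exact ⟨g5.trans this.1, g7.trans this.2⟩

/-- **From `BP` to `Blk`.**  `tau' = {0, n}` and the gaps `s ∈ tau`, `0 < s < n`.  The
field `hole` by induction on the distance: the end of the region of `s` next to `r` is `r`, or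
untouched and nearer to `r`. -/
theorem toBlk {S : Sys} {n m H : ℕ} {X : ℕ → ℕ} (B : BP n m H X) (hn : n = S.top - 1)
    (hm : m = S.m) (hX : ∀ t, t < S.m → X t = S.X t) :
    ∃ B' : Blk S, B'.H = H ∧ B'.tot ≤ ∑ t ∈ Finset.range S.m, (B.tau t).card + 2 * S.m := by
  classical
  subst hm
  have hkey : ∀ t, t < S.m → 0 < S.X t ∧ S.X t ≤ n := by
    intro t ht
    have := S.key _ (S.req t ht)
    omega
  set tau : ℕ → Finset ℕ := fun t =>
    insert 0 (insert n ((B.tau t).filter (fun s => 0 < s ∧ s < n))) with htd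
  have htau : ∀ t s, s ∈ tau t ↔ s = 0 ∨ s = n ∨ (s ∈ B.tau t ∧ 0 < s ∧ s < n) := by
    intro t s
    rw [htd]
    simp only [Finset.mem_insert, Finset.mem_filter]
  have htX : ∀ t, t < S.m → ∀ s, (s = S.X t - 1 ∨ s = S.X t) → s ∈ tau t := by
    intro t ht s hs
    have hk := hkey t ht
    rw [htau]
    by_contra hc
    push Not at hc
    obtain ⟨c1, c2, c3⟩ := hc
    have hst : s ∉ B.tau t := fun h => by
      have := c3 h (by omega)
      omega
    obtain ⟨a, b, g1, g2, g3, g4, _⟩ := B.unt t ht s (by omega) (by omega) hst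
    have := hX t ht
    omega
  let B' : Blk S :=
    { H := H
      om := B.om
      tau := tau
      om_le := fun t _ s h1 h2 => (B.le t s h1 (by omega)).2
      om_zero := fun t _ => (B.ends t).1
      om_last := fun t _ => by rw [← hn]; exact (B.ends t).2
      uniq := by
        intro t ht s s' h1 h2 he
        rcases Nat.eq_zero_or_pos s with rfl | hs
        · by_cases h3 : s' = n
          · left; omega
          · have e1 := (B.ends t).1
            have e2 := (B.le t s' (by omega) (by omega)).2
            omega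
        · by_cases h3 : s' = n
          · have e1 := (B.ends t).2
            have e2 := (B.le t s hs (by omega)).2
            rw [h3] at he
            omega
          · right
            exact B.sep t ht s s' hs h1 (by omega) he
      tau_lt := by
        intro t ht s hs
        have hk := hkey t ht
        rcases (htau t s).1 hs with h | h | h <;> omega
      tau_zero := fun t _ => (htau t 0).2 (Or.inl rfl)
      tau_last := fun t _ => by rw [← hn]; exact (htau t n).2 (Or.inr (Or.inl rfl))
      tau_X := fun t ht => ⟨htX t ht _ (Or.inl rfl), htX t ht _ (Or.inr rfl)⟩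
      keep := by
        intro t ht s h1 h2
        have hs0 : s ≠ 0 := fun h => h2 ((htau t s).2 (Or.inl h))
        have hsn : s ≠ n := fun h => h2 ((htau t s).2 (Or.inr (Or.inl h)))
        have hst : s ∉ B.tau t := fun h =>
          h2 ((htau t s).2 (Or.inr (Or.inr ⟨h, by omega, by omega⟩)))
        obtain ⟨a, b, g1, g2, _, _, _, _, _, _, g9⟩ := B.unt t ht s (by omega) (by omega) hst
        exact (g9 s g1 g2).1
      hole := by
        intro t ht s h1 h2 r h3 h4
        exact TU_hole B ht (htau t) _ s r (by omega) h2 h3 le_rfl h4 }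
  refine ⟨B', rfl, ?_⟩
  have hc : ∀ t ∈ Finset.range S.m, (B'.tau t).card ≤ (B.tau t).card + 2 := by
    intro t _
    have e1 : (B'.tau t).card ≤ ((B.tau t).filter (fun s => 0 < s ∧ s < n)).card + 1 + 1 :=
      (Finset.card_insert_le _ _).trans (Nat.add_le_add_right (Finset.card_insert_le _ _) 1)
    have e2 := Finset.card_filter_le (B.tau t) (fun s => 0 < s ∧ s < n)
    omega
  unfold Blk.tot
  refine (Finset.sum_le_sum hc).trans ?_
  rw [Finset.sum_add_distrib, Finset.sum_const, Finset.card_range]
  simp only [smul_eq_mul]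
  omega

/-- **Theorem B**, explicit form: keys `1, ..., n`, `n = S.top - 1 ≤ 2 ^ L`. -/
theorem tango_blk {L K : ℕ} (hK : L ≤ 2 ^ K) (S : Sys) (hn : S.top ≤ 2 ^ L + 1) :
    ∃ B : Blk S, B.H = L * (K + 3) + K + 1 ∧
      B.tot ≤ (4 * K + 2) *
        (SW 2 L (fun _ i => 2 * i) ((List.range S.m).map (fun t => S.X t - 1)) + S.m) +
        2 * S.m := by
  have hX : ∀ x ∈ (List.range S.m).map S.X, 1 ≤ x ∧ x ≤ S.top - 1 := by
    intro x hx
    rw [List.mem_map] at hx
    obtain ⟨t, ht, rfl⟩ := hx
    have := S.key _ (S.req t (List.mem_range.1 ht))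
    omega
  obtain ⟨B, hB⟩ := tango (n := S.top - 1) hK (Nat.sub_le_iff_le_add.2 hn) _ hX
  have hlen : ((List.range S.m).map S.X).length = S.m := by simp
  obtain ⟨B', h1, h2⟩ := toBlk (S := S) B rfl hlen (by
    intro t ht
    rw [List.getD_eq_getElem _ _ (by rw [hlen]; exact ht)]
    simp)
  have e : ∑ t ∈ Finset.range S.m, (B.tau t).card =
      ∑ t ∈ Finset.range ((List.range S.m).map S.X).length, (B.tau t).card :=
    Finset.sum_congr (by rw [hlen]) (fun _ _ => rfl)
  rw [List.map_map] at hB
  have e2 : (4 * K + 2) * (SW 2 L (fun _ i => 2 * i)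
      (List.map ((fun x => x - 1) ∘ S.X) (List.range S.m)) +
        ((List.range S.m).map S.X).length) = (4 * K + 2) * (SW 2 L (fun _ i => 2 * i)
      ((List.range S.m).map (fun t => S.X t - 1)) + S.m) := by
    rw [hlen]
    rfl
  rw [← e, e2] at hB
  exact ⟨B', h1, h2.trans (Nat.add_le_add_right hB _)⟩

end Pool.Agent.SplTgo
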