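import Pool.Agent.SplTgo.Defs

set_option autoImplicit false

namespace Pool.Agent.SplTgo

/-! ## A. priorities -/

/-- [`K + bit` itself is in the set: `Nat.sInf_le`.] -/
theorem pr_le_top (K y j : ℕ) : pr K y j ≤ K + (y.testBit j).toNat := by
  exact Nat.sInf_le (Or.inl le_rfl)

/-- [`Nat.sInf_mem` (the set is nonempty) and `pr < K + bit`.] -/
theorem pr_low {K y j : ℕ} (h : pr K y j < K + (y.testBit j).toNat) :
    ∃ i, i < j ∧ i / 2 ^ (pr K y j + 1) = j / 2 ^ (pr K y j + 1) ∧ y.testBit i = y.testBit j := by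
  have hne : {p | K + (y.testBit j).toNat ≤ p ∨
    ∃ i, i < j ∧ i / 2 ^ (p + 1) = j / 2 ^ (p + 1) ∧ y.testBit i = y.testBit j}.Nonempty :=
    ⟨_, Or.inl le_rfl⟩
  rcases Nat.sInf_mem hne with h1 | h1
  · exact absurd h1 (Nat.not_le.2 h)
  · exact h1

/-- [`Nat.notMem_of_lt_sInf`.] -/
theorem pr_min {K y j q i : ℕ} (hq : q < pr K y j) (hi : i < j)
    (hb : y.testBit i = y.testBit j) : i / 2 ^ (q + 1) ≠ j / 2 ^ (q + 1) := by
  intro h
  exact Nat.notMem_of_lt_sInf hq (Or.inr ⟨i, hi, h, hb⟩)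

/-- [`Nat.sInf_le`.] -/
theorem pr_le {K y j q i : ℕ} (hi : i < j) (hb : y.testBit i = y.testBit j)
    (h : i / 2 ^ (q + 1) = j / 2 ^ (q + 1)) : pr K y j ≤ q := by
  exact Nat.sInf_le (Or.inr ⟨i, hi, h, hb⟩)

/-- [`1 ≤ j < 2 ^ K` gives `K ≥ 1`; take `q = K - 1` in `pr_le`: both quotients are
`0`.] -/
theorem pr_lt {K y j i : ℕ} (hj : j < 2 ^ K) (hi : i < j) (hb : y.testBit i = y.testBit j) :
    pr K y j < K := by
  have hK : 0 < K := by
    rcases Nat.eq_zero_or_pos K with h | h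
    · subst h
      rw [pow_zero] at hj
      omega
    · exact h
  have h1 : pr K y j ≤ K - 1 := by
    apply pr_le hi hb
    rw [Nat.sub_add_cancel hK, Nat.div_eq_of_lt hj, Nat.div_eq_of_lt (hi.trans hj)]
  omega

/-! ## B. dyadic intervals of levels -/

/-- -/
theorem lo_le (p j : ℕ) : lo p j ≤ j := by
  exact Nat.div_mul_le_self _ _

/-- -/
theorem lt_hi (p j : ℕ) : j < hi p j := by
  have h : 0 < 2 ^ (p + 1) := by positivity
  unfold hi
  rw [mul_comm]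
  exact Nat.lt_mul_div_succ j h

/-- -/
theorem mem_iff {p j i : ℕ} : (lo p j ≤ i ∧ i < hi p j) ↔ i / 2 ^ (p + 1) = j / 2 ^ (p + 1) := by
  have h : 0 < 2 ^ (p + 1) := by positivity
  unfold lo hi
  rw [← Nat.le_div_iff_mul_le h, ← Nat.div_lt_iff_lt_mul h]
  omega

/-- [`2 ^ (q + 1)` divides `2 ^ (p + 1)`, so `lo p j` is a multiple of `2 ^ (q + 1)`
which is `≤ j`; `lo q j` is the largest one.] -/
theorem lo_mono {p q j : ℕ} (h : q ≤ p) : lo p j ≤ lo q j := by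
  have h : 0 < 2 ^ (q + 1) := by positivity
  have hd : 2 ^ (q + 1) ∣ 2 ^ (p + 1) := pow_dvd_pow 2 (by omega)
  obtain ⟨c, hc⟩ : 2 ^ (q + 1) ∣ lo p j := Dvd.dvd.mul_left hd _
  have h1 : lo p j ≤ j := lo_le p j
  unfold lo at hc h1 ⊢
  rw [hc] at h1 ⊢
  have h2 : c ≤ j / 2 ^ (q + 1) := by
    rw [Nat.le_div_iff_mul_le h, mul_comm]
    exact h1
  rw [mul_comm]
  exact Nat.mul_le_mul_right _ h2

/-- -/
theorem hi_mono {p q j : ℕ} (h : q ≤ p) : hi q j ≤ hi p j := by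
  have h : 0 < 2 ^ (q + 1) := by positivity
  have hd : 2 ^ (q + 1) ∣ 2 ^ (p + 1) := pow_dvd_pow 2 (by omega)
  obtain ⟨c, hc⟩ : 2 ^ (q + 1) ∣ hi p j := Dvd.dvd.mul_left hd _
  have h1 : j < hi p j := lt_hi p j
  unfold hi at hc h1 ⊢
  rw [hc] at h1 ⊢
  have h2 : j / 2 ^ (q + 1) < c := by
    rw [Nat.div_lt_iff_lt_mul h, mul_comm]
    exact h1
  rw [mul_comm]
  exact Nat.mul_le_mul_left _ h2

/-- -/
theorem lo_congr {p i j : ℕ} (h : i / 2 ^ (p + 1) = j / 2 ^ (p + 1)) : lo p i = lo p j := by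
  unfold lo
  rw [h]

/-- -/
theorem hi_congr {p i j : ℕ} (h : i / 2 ^ (p + 1) = j / 2 ^ (p + 1)) : hi p i = hi p j := by
  unfold hi
  rw [h]

/-- [`hi p j ≥ 2 ^ (p + 1) ≥ 2 ^ K`.] -/
theorem hi_big {K p j : ℕ} (h : K ≤ p) : 2 ^ K ≤ hi p j := by
  have h1 : 2 ^ K ≤ 2 ^ (p + 1) := Nat.pow_le_pow_right (by omega) (by omega)
  unfold hi
  calc 2 ^ K ≤ 2 ^ (p + 1) := h1
    _ = 1 * 2 ^ (p + 1) := (one_mul _).symm
    _ ≤ _ := Nat.mul_le_mul_right _ (Nat.le_add_left 1 _)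

/-- [`i / 2 ^ (q + 1) = j / 2 ^ (q + 1)` implies the same for `p ≥ q`:
`Nat.div_div_eq_div_mul`, `pow_add`.] -/
theorem div_mono {p q i j : ℕ} (h : q ≤ p) (he : i / 2 ^ q = j / 2 ^ q) :
    i / 2 ^ p = j / 2 ^ p := by
  obtain ⟨d, rfl⟩ := Nat.exists_eq_add_of_le h
  rw [pow_add, ← Nat.div_div_eq_div_mul, ← Nat.div_div_eq_div_mul, he]

/-! ## C. uniqueness and nesting -/

private theorem TB_half {a b q : ℕ} (h : a < b) (hq : a / 2 ^ (q + 1) = b / 2 ^ (q + 1))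
    (hne : a / 2 ^ q ≠ b / 2 ^ q) : b / 2 ^ q = a / 2 ^ q + 1 ∧ a / 2 ^ q % 2 = 0 := by
  have h1 : a / 2 ^ q ≤ b / 2 ^ q := Nat.div_le_div_right h.le
  rw [pow_succ, ← Nat.div_div_eq_div_mul, ← Nat.div_div_eq_div_mul] at hq
  omega

theorem pr_inj {K y j j' : ℕ} (hj : j < 2 ^ K) (hj' : j' < 2 ^ K)
    (hb : y.testBit j = y.testBit j') (hp : pr K y j = pr K y j')
    (hI : pr K y j < K → j / 2 ^ (pr K y j + 1) = j' / 2 ^ (pr K y j + 1)) : j = j' := by
  have main : ∀ a b, a < 2 ^ K → b < 2 ^ K → y.testBit a = y.testBit b → pr K y a = pr K y b →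
      (pr K y a < K → a / 2 ^ (pr K y a + 1) = b / 2 ^ (pr K y a + 1)) → ¬ a < b := by
    intro a b ha hb' hbit hpr hI' hab
    have h1 : pr K y b < K := pr_lt hb' hab hbit
    have h2 : pr K y a < K := by omega
    have h3 := hI' h2
    obtain ⟨i, hi1, hi2, hi3⟩ := pr_low (K := K) (y := y) (j := a) (by omega)
    rcases Nat.eq_zero_or_pos (pr K y a) with h0 | h0
    · rw [h0] at h3 hi2
      simp only [zero_add, pow_one] at h3 hi2
      omega
    · obtain ⟨q, hq⟩ := Nat.exists_eq_succ_of_ne_zero h0.ne'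
      have h4 : i / 2 ^ (q + 1) ≠ a / 2 ^ (q + 1) := pr_min (K := K) (y := y) (by omega) hi1 hi3
      have h5 : a / 2 ^ (q + 1) ≠ b / 2 ^ (q + 1) := pr_min (K := K) (y := y) (by omega) hab hbit
      rw [hq] at h3 hi2
      have h6 := TB_half hi1 hi2 h4
      have h7 := TB_half hab h3 h5
      omega
  rcases Nat.lt_trichotomy j j' with h | h | h
  · exact absurd h (main j j' hj hj' hb hp hI)
  · exact h
  · exact absurd h (main j' j hj' hj hb.symm hp.symm (fun h1 => by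
      rw [← hp] at h1 ⊢
      exact (hI h1).symm))

theorem pr_nest {K y j v i : ℕ} (hj : j < 2 ^ K) (hv : v < 2 ^ K)
    (hb : y.testBit v = y.testBit j) (hK : pr K y j < K)
    (hI : v / 2 ^ (pr K y j + 1) = j / 2 ^ (pr K y j + 1)) (hi : i < v)
    (hl : lo (pr K y j) j ≤ i) (hbi : y.testBit i = y.testBit j) (hne : v ≠ j) :
    pr K y v < pr K y j := by
  have h1 : v < SplTgo.hi (pr K y j) j := (mem_iff.2 hI).2
  have h2 : i / 2 ^ (pr K y j + 1) = j / 2 ^ (pr K y j + 1) := mem_iff.1 ⟨hl, by omega⟩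
  have h3 : pr K y v ≤ pr K y j := pr_le hi (by rw [hbi, hb]) (by rw [h2, hI])
  rcases Nat.eq_or_lt_of_le h3 with h4 | h4
  · exact absurd (pr_inj hv hj hb h4 (fun _ => by rw [h4]; exact hI)) hne
  · exact h4

theorem pr_bottom {K y j : ℕ} (hK : pr K y j < K) :
    ∃ w, w < j ∧ lo (pr K y j) j ≤ w ∧ w / 2 ^ (pr K y j + 1) = j / 2 ^ (pr K y j + 1) ∧
      y.testBit w = y.testBit j ∧
      (∀ i, lo (pr K y j) j ≤ i → i < w → y.testBit i ≠ y.testBit j) ∧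
      pr K y j < pr K y w := by
  classical
  obtain ⟨i, hi1, hi2, hi3⟩ := pr_low (K := K) (y := y) (j := j) (by omega)
  have hex : ∃ w, lo (pr K y j) j ≤ w ∧ y.testBit w = y.testBit j :=
    ⟨i, (mem_iff.2 hi2).1, hi3⟩
  have h1 := Nat.find_spec hex
  have h2 : Nat.find hex ≤ i := Nat.find_min' hex ⟨(mem_iff.2 hi2).1, hi3⟩
  have h3 : ∀ k, lo (pr K y j) j ≤ k → k < Nat.find hex → y.testBit k ≠ y.testBit j :=
    fun k k1 k2 k3 => Nat.find_min hex k2 ⟨k1, k3⟩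
  have h4 : Nat.find hex / 2 ^ (pr K y j + 1) = j / 2 ^ (pr K y j + 1) :=
    mem_iff.1 ⟨h1.1, by have := (mem_iff.2 hi2).2; omega⟩
  refine ⟨Nat.find hex, by omega, h1.1, h4, h1.2, h3, ?_⟩
  by_contra hc
  push Not at hc
  obtain ⟨k, k1, k2, k3⟩ := pr_low (K := K) (y := y) (j := Nat.find hex) (by omega)
  have h5 : k / 2 ^ (pr K y j + 1) = j / 2 ^ (pr K y j + 1) := by
    rw [← h4]
    exact div_mono (by omega) k2
  exact h3 k (mem_iff.2 h5).1 k1 (by rw [k3, h1.2])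

theorem pr_congr {K x y j : ℕ} (hK : pr K y j < K)
    (h : x / 2 ^ lo (pr K y j) j = y / 2 ^ lo (pr K y j) j) : pr K x j = pr K y j := by
  have hbit : ∀ i, lo (pr K y j) j ≤ i → x.testBit i = y.testBit i := by
    intro i hi
    obtain ⟨k, rfl⟩ := Nat.exists_eq_add_of_le hi
    have h1 : (x / 2 ^ lo (pr K y j) j).testBit k = (y / 2 ^ lo (pr K y j) j).testBit k := by
      rw [h]
    rw [Nat.testBit_div_two_pow, Nat.testBit_div_two_pow] at h1
    rw [add_comm]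
    exact h1
  have hj := hbit j (lo_le _ _)
  have hmem : ∀ q, q ≤ pr K y j → ∀ i, i / 2 ^ (q + 1) = j / 2 ^ (q + 1) →
      lo (pr K y j) j ≤ i := fun q hq i hi =>
    (lo_mono hq).trans (mem_iff.2 hi).1
  obtain ⟨i, hi1, hi2, hi3⟩ := pr_low (K := K) (y := y) (j := j) (by omega)
  have h1 : pr K x j ≤ pr K y j := by
    refine pr_le hi1 ?_ hi2
    rw [hbit i (hmem _ le_rfl i hi2), hj, hi3]
  refine le_antisymm h1 ?_
  by_contra hc
  push Not at hc
  obtain ⟨k, k1, k2, k3⟩ := pr_low (K := K) (y := x) (j := j) (by omega)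
  have h2 : y.testBit k = y.testBit j := by
    rw [← hbit k (hmem _ hc.le k k2), k3, hj]
  exact pr_min hc k1 h2 k2

theorem pr_cases {K y j : ℕ} (hj : j < 2 ^ K) :
    pr K y j < K ∨ pr K y j = K + (y.testBit j).toNat ∧
      ∀ i, i < j → y.testBit i ≠ y.testBit j := by
  rcases Nat.lt_or_ge (pr K y j) K with h | h
  · exact Or.inl h
  · right
    constructor
    · rcases Nat.eq_or_lt_of_le (pr_le_top K y j) with h1 | h1
      · exact h1
      · obtain ⟨i, i1, _, i3⟩ := pr_low h1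
        have := pr_lt hj i1 i3
        omega
    · intro i hi hb
      have := pr_lt hj hi hb
      omega

end Pool.Agent.SplTgo
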