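import Mathlib

set_option autoImplicit false

/-!
# The canonical Tango block process: definitions

Keys are the numbers `0, ..., 2 ^ L - 1`; the gap `s` (`0 < s < 2 ^ L`) lies between the keys
`s - 1` and `s`, its level is `lev s`, its dyadic block consists of the keys `z` with
`z / 2 ^ (lev s + 1) = s / 2 ^ (lev s + 1)`.  The state `Y` records for each level `j` and each
dyadic block `i` of length `2 ^ (j + 1)` the key `Y j i` of the block requested last.  The path of
a key `y` consists of the gaps `s` with `yk Y s = y`; they have the levels `j < et L Y y`.  A gap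
`s` of the path is a left gap (`s ≤ y`) iff the bit `lev s` of `y` is `1`.

The cut at level `j` of the path of `y` gets the priority `pr K y j`: the least `p` such that the
dyadic interval of levels `[lo p j, hi p j)` of length `2 ^ (p + 1)` around `j` contains a level
`i < j` with the same bit of `y`, and `K + bit` if there is none.
-/

namespace Pool.Agent.SplTgo

/-- The priority of the cut at level `j` of the path of the key `y`. -/
noncomputable def pr (K y j : ℕ) : ℕ :=
  sInf {p | K + (y.testBit j).toNat ≤ p ∨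
    ∃ i, i < j ∧ i / 2 ^ (p + 1) = j / 2 ^ (p + 1) ∧ y.testBit i = y.testBit j}

/-- The lower end of the dyadic interval of length `2 ^ (p + 1)` around `j`. -/
def lo (p j : ℕ) : ℕ := j / 2 ^ (p + 1) * 2 ^ (p + 1)

/-- The upper end of the dyadic interval of length `2 ^ (p + 1)` around `j`. -/
def hi (p j : ℕ) : ℕ := (j / 2 ^ (p + 1) + 1) * 2 ^ (p + 1)

/-- The level of the gap `s`. -/
def lev (s : ℕ) : ℕ := padicValNat 2 s

/-- The key of the path of the gap `s`: the last requested key of its dyadic block. -/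
def yk (Y : ℕ → ℕ → ℕ) (s : ℕ) : ℕ := Y (lev s) (s / 2 ^ (lev s + 1))

/-- The number of levels of the path of the key `y`. -/
def et (L : ℕ) (Y : ℕ → ℕ → ℕ) (y : ℕ) : ℕ :=
  ((Finset.range L).filter (fun j => Y j (y / 2 ^ (j + 1)) = y)).card

/-- The priority of the gap `s`. -/
noncomputable def pp (K : ℕ) (Y : ℕ → ℕ → ℕ) (s : ℕ) : ℕ := pr K (yk Y s) (lev s)

/-- The upper end of the interval of levels of the gap `s`, cut off at the top of the path. -/
noncomputable def hh (L K : ℕ) (Y : ℕ → ℕ → ℕ) (s : ℕ) : ℕ :=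
  min (hi (pp K Y s) (lev s)) (et L Y (yk Y s))

/-- The height of the gap `s`. -/
noncomputable def om (L K : ℕ) (Y : ℕ → ℕ → ℕ) (s : ℕ) : ℕ := hh L K Y s * (K + 3) + pp K Y s

/-- The state after the request of `x`. -/
def nx (Y : ℕ → ℕ → ℕ) (x : ℕ) : ℕ → ℕ → ℕ :=
  fun j i => if x / 2 ^ (j + 1) = i then x else Y j i

/-- Consistent states. -/
structure Con (Y : ℕ → ℕ → ℕ) : Prop where
  blk : ∀ j i, Y j i / 2 ^ (j + 1) = i
  sub : ∀ j i j', j' ≤ j → Y j' (Y j i / 2 ^ (j' + 1)) = Y j i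

/-- The left end of the region of the gap `s`. -/
noncomputable def ra (L K : ℕ) (Y : ℕ → ℕ → ℕ) (s : ℕ) : ℕ :=
  if s ≤ yk Y s then yk Y s / 2 ^ hh L K Y s * 2 ^ hh L K Y s
  else if K ≤ pp K Y s then yk Y s
  else (yk Y s / 2 ^ lo (pp K Y s) (lev s) + 1) * 2 ^ lo (pp K Y s) (lev s)

/-- The right end of the region of the gap `s`. -/
noncomputable def rb (L K : ℕ) (Y : ℕ → ℕ → ℕ) (s : ℕ) : ℕ :=
  if s ≤ yk Y s ∧ pp K Y s < K then
    yk Y s / 2 ^ lo (pp K Y s) (lev s) * 2 ^ lo (pp K Y s) (lev s)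
  else (yk Y s / 2 ^ hh L K Y s + 1) * 2 ^ hh L K Y s

/-- The request `x` does not change the region of the gap `s`. -/
def Unt (L K : ℕ) (Y : ℕ → ℕ → ℕ) (x s : ℕ) : Prop :=
  x / 2 ^ et L Y (yk Y s) ≠ yk Y s / 2 ^ et L Y (yk Y s) ∨
  (pp K Y s < K ∧ hi (pp K Y s) (lev s) ≤ et L Y (yk Y s) ∧
    (x / 2 ^ lo (pp K Y s) (lev s) = yk Y s / 2 ^ lo (pp K Y s) (lev s) ∨
      x / 2 ^ hi (pp K Y s) (lev s) ≠ yk Y s / 2 ^ hi (pp K Y s) (lev s)))

/-- The state before the request `t`, for the initial state `Y`. -/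
def st (Y : ℕ → ℕ → ℕ) (X : ℕ → ℕ) : ℕ → ℕ → ℕ → ℕ
  | 0 => Y
  | t + 1 => nx (st Y X t) (X t)

end Pool.Agent.SplTgo
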