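import Pool.Agent.SplTgo.Bits

set_option autoImplicit false

/-!
## Gaps and keys

Near and far key of a gap `r`, seen from `y`: for a left gap (`r ≤ y`) they are `r` and `r - 1`,
for a right gap (`y < r`) they are `r - 1` and `r`.
-/

namespace Pool.Agent.SplTgo

/-- The key next to the gap `r` on the side of `y`, for left (`b = true`) and right gaps. -/
def nr (b : Bool) (r : ℕ) : ℕ := if b then r else r - 1

/-- The key next to the gap `r` on the other side. -/
def fr (b : Bool) (r : ℕ) : ℕ := if b then r - 1 else r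

/-- The gap `r` is on the side `b` of the key `y`. -/
def side (b : Bool) (y r : ℕ) : Prop := if b then r ≤ y else y < r

/-- [`Nat.ordProj_dvd`-like facts for `padicValNat`: `2 ^ lev s ∣ s`, the quotient is
odd.] -/
theorem gap_eq {s : ℕ} (hs : 0 < s) : s = (2 * (s / 2 ^ (lev s + 1)) + 1) * 2 ^ lev s := by
  have h1 : 2 ^ lev s ∣ s := pow_padicValNat_dvd
  have h2 : ¬ 2 ^ (lev s + 1) ∣ s := pow_succ_padicValNat_not_dvd hs.ne'
  obtain ⟨m, hm⟩ := h1
  have h3 : ¬ 2 ∣ m := fun ⟨c, hc⟩ => h2 ⟨c, by rw [pow_succ, mul_assoc, ← hc]; exact hm⟩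
  have h4 : s / 2 ^ (lev s + 1) = m / 2 := by
    rw [pow_succ, ← Nat.div_div_eq_div_mul]
    congr 1
    exact Nat.div_eq_of_eq_mul_right (by positivity) hm
  have h5 : 2 * (m / 2) + 1 = m := by omega
  rw [h4, h5, mul_comm]
  exact hm

/-- -/
theorem lev_odd (i j : ℕ) : lev ((2 * i + 1) * 2 ^ j) = j := by
  have h1 : padicValNat 2 (2 * i + 1) = 0 :=
    padicValNat.eq_zero_of_not_dvd (by omega)
  rw [lev, padicValNat.mul (by omega) (by positivity), h1, padicValNat.prime_pow, zero_add]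

/-- -/
theorem lev_ge {s k : ℕ} (hs : 0 < s) (h : 2 ^ k ∣ s) : k ≤ lev s :=
  (padicValNat_dvd_iff_le hs.ne').1 h

/-- [`2 ^ lev s ≤ s < 2 ^ L`.] -/
theorem lev_lt {s L : ℕ} (hs : 0 < s) (h : s < 2 ^ L) : lev s < L := by
  have h1 : 2 ^ lev s ≤ s := Nat.le_of_dvd hs pow_padicValNat_dvd
  exact (Nat.pow_lt_pow_iff_right (by norm_num)).1 (lt_of_le_of_lt h1 h)

/-- The keys `r - 1` and `r` agree above the level of `r`.  [`r = (2 a + 1) 2 ^ v`,
`r - 1 = 2 a 2 ^ v + (2 ^ v - 1)`: both have quotient `a` by `2 ^ (v + 1)`.] -/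
theorem pred_div {r k : ℕ} (hr : 0 < r) (h : lev r < k) : (r - 1) / 2 ^ k = r / 2 ^ k := by
  have h1 := gap_eq hr
  have h2 : (r - 1) / 2 ^ (lev r + 1) = r / 2 ^ (lev r + 1) := by
    generalize r / 2 ^ (lev r + 1) = a at h1 ⊢
    have h3 : 0 < 2 ^ lev r := by positivity
    refine Nat.div_eq_of_lt_le ?_ ?_
    · rw [pow_succ]
      nlinarith [h1, h3, Nat.sub_add_cancel hr]
    · rw [pow_succ]
      have h4 : r - 1 < r := Nat.sub_lt hr one_pos
      nlinarith [h1, h3, h4]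
  exact div_mono h h2

/-- A gap on the path of `y` is a left gap iff the bit is `1`, and then it is
`y / 2 ^ v * 2 ^ v`; a right gap is `(y / 2 ^ v + 1) * 2 ^ v`. -/
theorem path_gap {y s : ℕ} (hs : 0 < s) (h : y / 2 ^ (lev s + 1) = s / 2 ^ (lev s + 1)) :
    (s ≤ y ∧ y.testBit (lev s) = true ∧ s = y / 2 ^ lev s * 2 ^ lev s) ∨
    (y < s ∧ y.testBit (lev s) = false ∧ s = (y / 2 ^ lev s + 1) * 2 ^ lev s) := by
  have h1 := gap_eq hs
  rw [← h] at h1
  have h2 : y / 2 ^ (lev s + 1) = y / 2 ^ lev s / 2 := by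
    rw [pow_succ, Nat.div_div_eq_div_mul]
  rw [h2] at h1
  have h3 : 0 < 2 ^ lev s := by positivity
  have h4 : y / 2 ^ lev s * 2 ^ lev s ≤ y := Nat.div_mul_le_self _ _
  have h5 : y < (y / 2 ^ lev s + 1) * 2 ^ lev s := by
    rw [mul_comm]; exact Nat.lt_mul_div_succ y h3
  rw [Nat.testBit_eq_decide_div_mod_eq]
  rcases Nat.mod_two_eq_zero_or_one (y / 2 ^ lev s) with h6 | h6
  · right
    have h7 : 2 * (y / 2 ^ lev s / 2) + 1 = y / 2 ^ lev s + 1 := by omega
    rw [h7] at h1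
    refine ⟨?_, ?_, h1⟩
    · calc y < (y / 2 ^ lev s + 1) * 2 ^ lev s := h5
        _ = s := h1.symm
    · rw [h6]; rfl
  · left
    have h7 : 2 * (y / 2 ^ lev s / 2) + 1 = y / 2 ^ lev s := by omega
    rw [h7] at h1
    refine ⟨?_, ?_, h1⟩
    · calc s = y / 2 ^ lev s * 2 ^ lev s := h1
        _ ≤ y := h4
    · rw [h6]; rfl

/-- If all bits of `y` at the levels in `[l, w)` are `0` then clearing the lowest `w`
bits is the same as clearing the lowest `l` bits.  [Induction on `w`: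
`y / 2 ^ w * 2 ^ w = y / 2 ^ (w + 1) * 2 ^ (w + 1)` if the bit `w` is `0`.] -/
theorem clear_eq {y l w : ℕ} (h : l ≤ w) (hb : ∀ i, l ≤ i → i < w → y.testBit i = false) :
    y / 2 ^ l * 2 ^ l = y / 2 ^ w * 2 ^ w := by
  induction w, h using Nat.le_induction with
  | base => rfl
  | succ w hw ih =>
    rw [ih fun i h1 h2 => hb i h1 (by omega)]
    have h1 := hb w hw (by omega)
    rw [Nat.testBit_eq_decide_div_mod_eq] at h1
    have h2 : y / 2 ^ w % 2 ≠ 1 := by simpa using h1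
    have h3 : y / 2 ^ (w + 1) = y / 2 ^ w / 2 := by rw [pow_succ, Nat.div_div_eq_div_mul]
    have h4 : y / 2 ^ w = 2 * (y / 2 ^ w / 2) := by omega
    rw [h3, pow_succ]
    generalize y / 2 ^ w / 2 = a at h4 ⊢
    rw [h4]; ring

/-- The mirror image of `clear_eq`: all bits in `[l, w)` are `1`. -/
theorem fill_eq {y l w : ℕ} (h : l ≤ w) (hb : ∀ i, l ≤ i → i < w → y.testBit i = true) :
    (y / 2 ^ l + 1) * 2 ^ l = (y / 2 ^ w + 1) * 2 ^ w := by
  induction w, h using Nat.le_induction with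
  | base => rfl
  | succ w hw ih =>
    rw [ih fun i h1 h2 => hb i h1 (by omega)]
    have h1 := hb w hw (by omega)
    rw [Nat.testBit_eq_decide_div_mod_eq] at h1
    have h2 : y / 2 ^ w % 2 = 1 := by simpa using h1
    have h3 : y / 2 ^ (w + 1) = y / 2 ^ w / 2 := by rw [pow_succ, Nat.div_div_eq_div_mul]
    have h4 : y / 2 ^ w = 2 * (y / 2 ^ w / 2) + 1 := by omega
    rw [h3, pow_succ]
    generalize y / 2 ^ w / 2 = a at h4 ⊢
    rw [h4]; ring

/-- A left gap strictly between `y / 2 ^ h * 2 ^ h` and `y / 2 ^ l * 2 ^ l`. -/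
theorem mem_left {y l h r : ℕ} (h1 : y / 2 ^ h * 2 ^ h < r) (h2 : r < y / 2 ^ l * 2 ^ l) :
    side true y r ∧ nr true r / 2 ^ l ≠ y / 2 ^ l ∧ fr true r / 2 ^ h = y / 2 ^ h := by
  have hl : 0 < 2 ^ l := by positivity
  have hh : 0 < 2 ^ h := by positivity
  have h3 : y / 2 ^ l * 2 ^ l ≤ y := Nat.div_mul_le_self _ _
  have h4 : y < (y / 2 ^ h + 1) * 2 ^ h := by
    rw [mul_comm]; exact Nat.lt_mul_div_succ y hh
  refine ⟨?_, ?_, ?_⟩
  · show r ≤ y
    omega
  · show r / 2 ^ l ≠ y / 2 ^ l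
    exact ((Nat.div_lt_iff_lt_mul hl).2 h2).ne
  · show (r - 1) / 2 ^ h = y / 2 ^ h
    exact Nat.div_eq_of_lt_le (by omega) (by omega)

/-- A right gap strictly between `(y / 2 ^ l + 1) * 2 ^ l` and
`(y / 2 ^ h + 1) * 2 ^ h`. -/
theorem mem_right {y l h r : ℕ} (h1 : (y / 2 ^ l + 1) * 2 ^ l < r)
    (h2 : r < (y / 2 ^ h + 1) * 2 ^ h) :
    side false y r ∧ nr false r / 2 ^ l ≠ y / 2 ^ l ∧ fr false r / 2 ^ h = y / 2 ^ h := by
  have hl : 0 < 2 ^ l := by positivity
  have h3 : y / 2 ^ h * 2 ^ h ≤ y := Nat.div_mul_le_self _ _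
  have h4 : y < (y / 2 ^ l + 1) * 2 ^ l := by
    rw [mul_comm]; exact Nat.lt_mul_div_succ y hl
  refine ⟨?_, ?_, ?_⟩
  · show y < r
    omega
  · show (r - 1) / 2 ^ l ≠ y / 2 ^ l
    have h5 : y / 2 ^ l + 1 ≤ (r - 1) / 2 ^ l := (Nat.le_div_iff_mul_le hl).2 (by omega)
    omega
  · show r / 2 ^ h = y / 2 ^ h
    exact Nat.div_eq_of_lt_le (by omega) h2

/-- **Path gaps of a region.**  `v = lev r`, `y` in the block of `r`.  The bit `v` of
`y` is `b` (`path_gap`, `side`).  The far key differs from `y` at level `v`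
(`fr b r / 2 ^ v ≠ y / 2 ^ v`: for `b = true` `y / 2 ^ v = r / 2 ^ v > (r - 1) / 2 ^ v`, for
`b = false` `y / 2 ^ v + 1 = r / 2 ^ v`), so `v < h` by `div_mono`.  The near key agrees with `y`
at level `v`, so `l < v` by `div_mono`.  If no bit of `y` at the levels in `[l, v)` were `b` then
`clear_eq` resp. `fill_eq` with `w = v` gives `nr b r / 2 ^ l = y / 2 ^ l`: for `b = true`
`nr = r = y / 2 ^ v * 2 ^ v = y / 2 ^ l * 2 ^ l`; for `b = false`
`nr = r - 1 = (y / 2 ^ l + 1) * 2 ^ l - 1`.  Contradiction. -/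
theorem on_path {b : Bool} {y l h r : ℕ} (hr : 0 < r) (hs : side b y r)
    (h1 : nr b r / 2 ^ l ≠ y / 2 ^ l) (h2 : fr b r / 2 ^ h = y / 2 ^ h)
    (hy : y / 2 ^ (lev r + 1) = r / 2 ^ (lev r + 1)) :
    l < lev r ∧ lev r < h ∧ y.testBit (lev r) = b ∧
      ∃ i, l ≤ i ∧ i < lev r ∧ y.testBit i = b := by
  have hp := path_gap hr hy
  have hpos : 0 < 2 ^ lev r := by positivity
  rcases hp with ⟨a1, a2, a3⟩ | ⟨a1, a2, a3⟩
  · have hb : b = true := by
      cases b
      · simp only [side] at hs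
        simp at hs
        omega
      · rfl
    subst hb
    simp only [nr, fr, if_true] at h1 h2
    have e1 : y / 2 ^ lev r = r / 2 ^ lev r := by
      have h5 : r / 2 ^ lev r = y / 2 ^ lev r * 2 ^ lev r / 2 ^ lev r :=
        congrArg (fun z => z / 2 ^ lev r) a3
      rw [Nat.mul_div_cancel _ hpos] at h5
      exact h5.symm
    have e2 : (r - 1) / 2 ^ lev r < y / 2 ^ lev r := by
      have : r - 1 < y / 2 ^ lev r * 2 ^ lev r := by omega
      exact (Nat.div_lt_iff_lt_mul hpos).2 this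
    have c1 : lev r < h := by
      by_contra hc
      have := div_mono (Nat.le_of_not_lt hc) h2
      omega
    have c2 : l < lev r := by
      by_contra hc
      exact h1 (div_mono (Nat.le_of_not_lt hc) e1).symm
    refine ⟨c2, c1, a2, ?_⟩
    by_contra hc
    push Not at hc
    have e3 := clear_eq c2.le (fun i h3 h4 => by
      have := hc i h3 h4
      simpa using this)
    apply h1
    have e4 : r = y / 2 ^ l * 2 ^ l := by rw [e3]; exact a3
    have hl : 0 < 2 ^ l := by positivity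
    calc r / 2 ^ l = (y / 2 ^ l * 2 ^ l) / 2 ^ l := by rw [← e4]
      _ = y / 2 ^ l := Nat.mul_div_cancel _ hl
  · have hb : b = false := by
      cases b
      · rfl
      · simp only [side] at hs
        simp at hs
        omega
    subst hb
    simp only [nr, fr] at h1 h2
    simp only [Bool.false_eq_true, if_false] at h1 h2
    have e1 : r / 2 ^ lev r = y / 2 ^ lev r + 1 := by
      have h5 : r / 2 ^ lev r = (y / 2 ^ lev r + 1) * 2 ^ lev r / 2 ^ lev r :=
        congrArg (fun z => z / 2 ^ lev r) a3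
      rw [Nat.mul_div_cancel _ hpos] at h5
      exact h5
    have e2 : (r - 1) / 2 ^ lev r = y / 2 ^ lev r := by
      have h3 : r - 1 < (y / 2 ^ lev r + 1) * 2 ^ lev r := by omega
      have h4 : (r - 1) / 2 ^ lev r < y / 2 ^ lev r + 1 := (Nat.div_lt_iff_lt_mul hpos).2 h3
      have h5 : y / 2 ^ lev r ≤ (r - 1) / 2 ^ lev r := Nat.div_le_div_right (by omega)
      omega
    have c1 : lev r < h := by
      by_contra hc
      have := div_mono (Nat.le_of_not_lt hc) h2
      omega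
    have c2 : l < lev r := by
      by_contra hc
      exact h1 (div_mono (Nat.le_of_not_lt hc) e2)
    refine ⟨c2, c1, a2, ?_⟩
    by_contra hc
    push Not at hc
    have e3 := fill_eq c2.le (fun i h3 h4 => by
      have := hc i h3 h4
      simpa using this)
    apply h1
    have e4 : r = (y / 2 ^ l + 1) * 2 ^ l := by rw [e3]; exact a3
    have hl : 0 < 2 ^ l := by positivity
    have h3 : r - 1 < (y / 2 ^ l + 1) * 2 ^ l := by omega
    have h4 : (r - 1) / 2 ^ l < y / 2 ^ l + 1 := (Nat.div_lt_iff_lt_mul hl).2 h3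
    have h5 : y / 2 ^ l ≤ (r - 1) / 2 ^ l := Nat.div_le_div_right (by omega)
    omega

/-- **Other gaps.**  The key `y` is not in the block of `r`; let `i` be the largest
number with `r / 2 ^ i ≠ y / 2 ^ i`.  (It exists: for `i` with `r, y < 2 ^ i` the quotients are
equal, for `i = lev r + 1` they are different; e.g. `Nat.find` of the first `k` with
`r / 2 ^ (lev r + 1 + k + 1) = y / 2 ^ (lev r + 1 + k + 1)`.)  By `pred_div` all quotients of
`r - 1` by `2 ^ i`, `2 ^ (i + 1)` are those of `r`; so `i < h` and `l ≤ i` by `div_mono`, and the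
bit `i` of `y` is `1` iff `r ≤ y` (compare the quotients by `2 ^ i`). -/
theorem off_path {b : Bool} {y l h r : ℕ} (hr : 0 < r) (hs : side b y r)
    (h1 : nr b r / 2 ^ l ≠ y / 2 ^ l) (h2 : fr b r / 2 ^ h = y / 2 ^ h)
    (hy : y / 2 ^ (lev r + 1) ≠ r / 2 ^ (lev r + 1)) :
    ∃ i, lev r < i ∧ l ≤ i ∧ i < h ∧ r / 2 ^ (i + 1) = y / 2 ^ (i + 1) ∧
      r / 2 ^ i ≠ y / 2 ^ i ∧ y.testBit i = b := by
  have hr2 : r < 2 ^ (r + y) := by
    calc r < 2 ^ r := Nat.lt_two_pow_self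
      _ ≤ _ := Nat.pow_le_pow_right (by omega) (by omega)
  have hy2 : y < 2 ^ (r + y) := by
    calc y < 2 ^ y := Nat.lt_two_pow_self
      _ ≤ _ := Nat.pow_le_pow_right (by omega) (by omega)
  have hex : ∃ k, r / 2 ^ (lev r + 1 + k) = y / 2 ^ (lev r + 1 + k) := by
    refine ⟨r + y, ?_⟩
    apply div_mono (q := r + y) (by omega)
    rw [Nat.div_eq_of_lt hr2, Nat.div_eq_of_lt hy2]
  classical
  obtain ⟨k, hk, hkm⟩ : ∃ k, r / 2 ^ (lev r + 1 + k) = y / 2 ^ (lev r + 1 + k) ∧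
      ∀ k', k' < k → r / 2 ^ (lev r + 1 + k') ≠ y / 2 ^ (lev r + 1 + k') :=
    ⟨Nat.find hex, Nat.find_spec hex, fun k' h => Nat.find_min hex h⟩
  have hk0 : k ≠ 0 := by
    rintro rfl
    exact hy hk.symm
  obtain ⟨k, rfl⟩ := Nat.exists_eq_succ_of_ne_zero hk0
  obtain ⟨i, hi⟩ : ∃ i, i = lev r + 1 + k := ⟨_, rfl⟩
  have e1 : r / 2 ^ (i + 1) = y / 2 ^ (i + 1) := by
    rw [hi]
    exact hk
  have e2 : r / 2 ^ i ≠ y / 2 ^ i := by
    rw [hi]
    exact hkm k (by omega)
  have hlt : lev r < i := by omega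
  have p1 : (r - 1) / 2 ^ i = r / 2 ^ i := pred_div hr hlt
  have p2 : (r - 1) / 2 ^ (i + 1) = r / 2 ^ (i + 1) := pred_div hr (by omega)
  have f1 : fr b r / 2 ^ i = r / 2 ^ i := by
    cases b <;> simp [fr, p1]
  have f2 : nr b r / 2 ^ (i + 1) = r / 2 ^ (i + 1) := by
    cases b <;> simp [nr, p2]
  have c1 : i < h := by
    by_contra hc
    have h3 := div_mono (Nat.le_of_not_lt hc) h2
    rw [f1] at h3
    exact e2 h3
  have c2 : l ≤ i := by
    by_contra hc
    have h3 : nr b r / 2 ^ (i + 1) = y / 2 ^ (i + 1) := f2.trans e1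
    exact h1 (div_mono (by omega) h3)
  refine ⟨i, hlt, c2, c1, e1, e2, ?_⟩
  have q1 : r / 2 ^ i / 2 = y / 2 ^ i / 2 := by
    rw [Nat.div_div_eq_div_mul, Nat.div_div_eq_div_mul, ← pow_succ]
    exact e1
  rw [Nat.testBit_eq_decide_div_mod_eq]
  cases b
  · simp only [side, Bool.false_eq_true, if_false] at hs
    have h3 : y / 2 ^ i ≤ r / 2 ^ i := Nat.div_le_div_right hs.le
    have h4 : y / 2 ^ i % 2 = 0 := by omega
    rw [h4]
    simp
  · simp only [side, if_true] at hs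
    have h3 : r / 2 ^ i ≤ y / 2 ^ i := Nat.div_le_div_right hs
    have h4 : y / 2 ^ i % 2 = 1 := by omega
    rw [h4]
    simp

end Pool.Agent.SplTgo
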