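import Pool.Agent.SplTgo.State

set_option autoImplicit false

/-!
## The regions of the gaps

Notation in the proofs: `y = yk Y s`, `j = lev s`, `p = pp K Y s = pr K y j`, `eta = et L Y y`,
`h = hh L K Y s = min (hi p j) eta`, `l = lo p j`, `b = y.testBit j`.
-/

namespace Pool.Agent.SplTgo

/-- A gap `r` whose block contains `y` and whose level is `< eta` is `gp y (lev r)`, and
its key is `y`.  [`gap_eq`, `yk_gp`.] -/
theorem of_path {L : ℕ} {Y : ℕ → ℕ → ℕ} (hY : Con Y) {y r : ℕ} (hr : 0 < r)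
    (h : y / 2 ^ (lev r + 1) = r / 2 ^ (lev r + 1)) (hl : lev r < et L Y y) :
    r = gp y (lev r) ∧ yk Y r = y := by
  have h1 : r = gp y (lev r) := by
    unfold gp
    rw [h]
    exact gap_eq hr
  refine ⟨h1, ?_⟩
  have h2 := yk_gp hY hl
  rwa [← h1] at h2

/-- **Inside of a region, `p < K`.**  If `y` is in the block of `r`: `on_path` (with
`l`, `h`) gives `l < v = lev r < h ≤ eta`, the bit `v` of `y` is `b`, and there is `i` with
`l ≤ i < v` and bit `b`.  By `of_path` `yk Y r = y` and `r = gp y v`.  As `l ≤ v < hi p j`,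
`v / 2 ^ (p + 1) = j / 2 ^ (p + 1)` (`mem_iff`).  If `v = j` then `r = s` (`gp_yk`).  Otherwise
`pr_nest` gives `pp r < p`, and `hi (pp r) v ≤ hi p v = hi p j` (`hi_mono`, `hi_congr`): so
`hh r ≤ hh s`, `om r < om s` by `om_path`, and the last alternative holds (`lo_mono`,
`lo_congr`).  If `y` is not in the block of `r`: `off_path` and `om_hang`. -/
theorem inside_low {L K : ℕ} {Y : ℕ → ℕ → ℕ} (hY : Con Y) (hK : L ≤ 2 ^ K) {s r : ℕ} (h0 : 0 < s)
    (hs : s < 2 ^ L) (hp : pp K Y s < K) (hr : 0 < r)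
    (h1 : side ((yk Y s).testBit (lev s)) (yk Y s) r)
    (h2 : nr ((yk Y s).testBit (lev s)) r / 2 ^ lo (pp K Y s) (lev s) ≠
      yk Y s / 2 ^ lo (pp K Y s) (lev s))
    (h3 : fr ((yk Y s).testBit (lev s)) r / 2 ^ hh L K Y s = yk Y s / 2 ^ hh L K Y s) :
    r = s ∨ om L K Y r < om L K Y s ∧
      ((yk Y r = yk Y s ∧ pp K Y r < pp K Y s ∧ hi (pp K Y r) (lev r) ≤ hi (pp K Y s) (lev s) ∧
          lo (pp K Y s) (lev s) ≤ lo (pp K Y r) (lev r)) ∨
        ∃ i, lev r < i ∧ lo (pp K Y s) (lev s) ≤ i ∧ i < hh L K Y s ∧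
          r / 2 ^ (i + 1) = yk Y s / 2 ^ (i + 1) ∧ r / 2 ^ i ≠ yk Y s / 2 ^ i) := by
  have hjL : lev s < 2 ^ K := lt_of_lt_of_le (lev_lt h0 hs) hK
  by_cases hb : yk Y s / 2 ^ (lev r + 1) = r / 2 ^ (lev r + 1)
  · obtain ⟨hl, hv, hbit, i, hi1, hi2, hi3⟩ := on_path hr h1 h2 h3 hb
    have het : lev r < et L Y (yk Y s) := lt_of_lt_of_le hv (min_le_right _ _)
    obtain ⟨hr1, hr2⟩ := of_path hY hr hb het
    have hvp : lev r / 2 ^ (pp K Y s + 1) = lev s / 2 ^ (pp K Y s + 1) :=
      mem_iff.1 ⟨hl.le, lt_of_lt_of_le hv (min_le_left _ _)⟩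
    by_cases hvj : lev r = lev s
    · left
      rw [hr1, hvj]
      exact gp_yk hY h0
    · right
      have hvK : lev r < 2 ^ K := lt_of_lt_of_le (lt_of_lt_of_le het et_le) hK
      have hnest : pr K (yk Y s) (lev r) < pr K (yk Y s) (lev s) :=
        pr_nest hjL hvK hbit hp hvp hi2 hi1 hi3 hvj
      have hpr : pp K Y r = pr K (yk Y s) (lev r) := by
        unfold pp
        rw [hr2]
      have hlt : pp K Y r < pp K Y s := by
        rw [hpr]
        exact hnest
      have hhi : hi (pp K Y r) (lev r) ≤ hi (pp K Y s) (lev s) := by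
        rw [← hi_congr hvp]
        exact hi_mono hlt.le
      have hlo : lo (pp K Y s) (lev s) ≤ lo (pp K Y r) (lev r) := by
        rw [← lo_congr hvp]
        exact lo_mono hlt.le
      have hhh : hh L K Y r ≤ hh L K Y s := by
        unfold hh
        rw [hr2]
        exact min_le_min hhi le_rfl
      exact ⟨om_path hY hr2 hhh hlt, Or.inl ⟨hr2, hlt, hhi, hlo⟩⟩
  · obtain ⟨i, hi1, hi2, hi3, hi4, hi5, -⟩ := off_path hr h1 h2 h3 hb
    exact Or.inr ⟨(om_hang hY hi1 hi3 hi4 hi5).2, Or.inr ⟨i, hi1, hi2, hi3, hi4, hi5⟩⟩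

/-- For the top cuts `h = eta`.  [`hi_big`, `et_le`.] -/
theorem hh_top {L K : ℕ} {Y : ℕ → ℕ → ℕ} (hK : L ≤ 2 ^ K) {s : ℕ} (hp : K ≤ pp K Y s) :
    hh L K Y s = et L Y (yk Y s) := by
  unfold hh
  exact min_eq_right (le_trans et_le (le_trans hK (hi_big hp)))

/-- **Inside of a region, top cuts** (`K ≤ p`, so `p = K + b` and no level below `j`
has the bit `b`, by `pr_cases`; `h = eta` by `hh_top`).  If `y` is in the block of `r`, `v = lev r`:
`v < eta`, since otherwise `(r - 1) / 2 ^ v = y / 2 ^ v = r / 2 ^ v` (`div_mono`), but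
`r = (2 a + 1) 2 ^ v` (`gap_eq`).  So `yk Y r = y`, `r = gp y v` (`of_path`), `hh r ≤ eta = hh s`.
`pr_cases` for `v`: if `pp r < K` then `om_path`.  Otherwise `pp r = K + bit v` and no level below
`v` has this bit.  If the bits of `v` and `j` agree then `v = j` (neither is below the other), so
`r = s`.  If they do not agree: for `b = 1`, `pp r = K < K + 1 = p`; for `b = 0` the bit of `v` is
`1`, so `r ≤ y` (`path_gap`): excluded by `h1`.  If `y` is not in the block of `r`: the largest `i`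
with `r / 2 ^ i ≠ y / 2 ^ i` is `< eta` by `h3`, and `om_hang`.  (Or use `off_path` with
`l = lev r + 1`, `h = eta`: the near key has `nr / 2 ^ l = r / 2 ^ l ≠ y / 2 ^ l`.) -/
theorem inside_top {L K : ℕ} {Y : ℕ → ℕ → ℕ} (hY : Con Y) (hK : L ≤ 2 ^ K) {s r : ℕ} (h0 : 0 < s)
    (hs : s < 2 ^ L) (hp : K ≤ pp K Y s) (hr : 0 < r)
    (h1 : (yk Y s).testBit (lev s) = false → yk Y s < r)
    (h2 : (r - 1) / 2 ^ et L Y (yk Y s) = yk Y s / 2 ^ et L Y (yk Y s))
    (h3 : r / 2 ^ et L Y (yk Y s) = yk Y s / 2 ^ et L Y (yk Y s)) :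
    r = s ∨ om L K Y r < om L K Y s ∧
      (yk Y r = yk Y s ∨
        ∃ i, lev r < i ∧ i < hh L K Y s ∧
          r / 2 ^ (i + 1) = yk Y s / 2 ^ (i + 1) ∧ r / 2 ^ i ≠ yk Y s / 2 ^ i) := by
  have hjL : lev s < 2 ^ K := lt_of_lt_of_le (lev_lt h0 hs) hK
  have hht := hh_top hK hp
  by_cases hb : yk Y s / 2 ^ (lev r + 1) = r / 2 ^ (lev r + 1)
  · have het : lev r < et L Y (yk Y s) := by
      by_contra hcon
      have hcon := Nat.le_of_not_lt hcon
      have e1 := div_mono hcon h2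
      have e2 := div_mono hcon h3
      have e3 : (r - 1) / 2 ^ lev r = r / 2 ^ lev r := e1.trans e2.symm
      have e4 := gap_eq hr
      have e5 : r / 2 ^ lev r = 2 * (r / 2 ^ (lev r + 1)) + 1 :=
        (congrArg (fun z => z / 2 ^ lev r) e4).trans (Nat.mul_div_cancel _ (Nat.two_pow_pos _))
      have e6 : (r - 1) / 2 ^ lev r < 2 * (r / 2 ^ (lev r + 1)) + 1 := by
        rw [Nat.div_lt_iff_lt_mul (Nat.two_pow_pos _), ← e4]
        omega
      omega
    obtain ⟨hr1, hr2⟩ := of_path hY hr hb het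
    have hhh : hh L K Y r ≤ hh L K Y s := by
      rw [hht, ← hr2]
      exact min_le_right _ _
    have hpr : pp K Y r = pr K (yk Y s) (lev r) := by
      unfold pp
      rw [hr2]
    have hvK : lev r < 2 ^ K := lt_of_lt_of_le (lt_of_lt_of_le het et_le) hK
    rcases pr_cases (K := K) (y := yk Y s) hvK with hc | ⟨hc, hc'⟩
    · right
      refine ⟨om_path hY hr2 hhh ?_, Or.inl hr2⟩
      rw [hpr]
      exact lt_of_lt_of_le hc hp
    · rcases pr_cases (K := K) (y := yk Y s) hjL with hd | ⟨hd, hd'⟩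
      · exact absurd hd (not_lt.2 hp)
      · by_cases hbb : (yk Y s).testBit (lev r) = (yk Y s).testBit (lev s)
        · left
          have hvj : lev r = lev s := by
            rcases lt_trichotomy (lev r) (lev s) with h | h | h
            · exact absurd hbb (hd' _ h)
            · exact h
            · exact absurd hbb.symm (hc' _ h)
          rw [hr1, hvj]
          exact gp_yk hY h0
        · right
          cases hj : (yk Y s).testBit (lev s) with
          | true =>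
            have hv : (yk Y s).testBit (lev r) = false := by
              cases hv : (yk Y s).testBit (lev r) with
              | true => exact absurd (hv.trans hj.symm) hbb
              | false => rfl
            refine ⟨om_path hY hr2 hhh ?_, Or.inl hr2⟩
            rw [hpr, hc, hv]
            show _ < pr K (yk Y s) (lev s)
            rw [hd, hj]
            simp
          | false =>
            exfalso
            have hv : (yk Y s).testBit (lev r) = true := by
              cases hv : (yk Y s).testBit (lev r) with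
              | true => rfl
              | false => exact absurd (hv.trans hj.symm) hbb
            have h4 := h1 hj
            rcases path_gap hr hb with ⟨h5, -, -⟩ | ⟨-, h5, -⟩
            · omega
            · rw [hv] at h5
              exact Bool.noConfusion h5
  · have key : ∃ i, lev r < i ∧ i < et L Y (yk Y s) ∧ r / 2 ^ (i + 1) = yk Y s / 2 ^ (i + 1) ∧
        r / 2 ^ i ≠ yk Y s / 2 ^ i := by
      rcases Nat.lt_or_ge (yk Y s) r with hlt | hge
      · obtain ⟨i, hi1, -, hi3, hi4, hi5, -⟩ := off_path (b := false) (y := yk Y s)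
          (l := lev r + 1) (h := et L Y (yk Y s)) hr hlt (by
            show (r - 1) / 2 ^ (lev r + 1) ≠ _
            rw [pred_div hr (Nat.lt_succ_self _)]
            exact fun h => hb h.symm) h3 hb
        exact ⟨i, hi1, hi3, hi4, hi5⟩
      · obtain ⟨i, hi1, -, hi3, hi4, hi5, -⟩ := off_path (b := true) (y := yk Y s)
          (l := lev r + 1) (h := et L Y (yk Y s)) hr hge (fun h => hb h.symm) h2 hb
        exact ⟨i, hi1, hi3, hi4, hi5⟩
    obtain ⟨i, hi1, hi3, hi4, hi5⟩ := key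
    rw [← hht] at hi3
    exact Or.inr ⟨(om_hang hY hi1 hi3 hi4 hi5).2, Or.inr ⟨i, hi1, hi3, hi4, hi5⟩⟩

private theorem TJ_down (y : ℕ) {a b : ℕ} (h : a ≤ b) : y / 2 ^ b * 2 ^ b ≤ y / 2 ^ a * 2 ^ a := by
  obtain ⟨c, rfl⟩ := Nat.exists_eq_add_of_le h
  have h1 : y / 2 ^ (a + c) * 2 ^ c ≤ y / 2 ^ a := by
    rw [Nat.le_div_iff_mul_le (Nat.two_pow_pos _), mul_assoc, ← pow_add, add_comm c a]
    exact Nat.div_mul_le_self _ _
  calc y / 2 ^ (a + c) * 2 ^ (a + c) = y / 2 ^ (a + c) * 2 ^ c * 2 ^ a := by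
        rw [mul_assoc, ← pow_add, add_comm c a]
    _ ≤ _ := Nat.mul_le_mul_right _ h1

private theorem TJ_lt (y b : ℕ) : y < (y / 2 ^ b + 1) * 2 ^ b := by
  rw [mul_comm]
  exact Nat.lt_mul_div_succ y (Nat.two_pow_pos b)

private theorem TJ_up (y : ℕ) {a b : ℕ} (h : a ≤ b) :
    (y / 2 ^ a + 1) * 2 ^ a ≤ (y / 2 ^ b + 1) * 2 ^ b := by
  obtain ⟨c, rfl⟩ := Nat.exists_eq_add_of_le h
  have h2 : (y / 2 ^ (a + c) + 1) * 2 ^ (a + c) = (y / 2 ^ (a + c) + 1) * 2 ^ c * 2 ^ a := by
    rw [mul_assoc, ← pow_add, add_comm c a]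
  rw [h2]
  refine Nat.mul_le_mul_right _ ?_
  have h1 : y / 2 ^ a < (y / 2 ^ (a + c) + 1) * 2 ^ c := by
    rw [Nat.div_lt_iff_lt_mul (Nat.two_pow_pos _), ← h2]
    exact TJ_lt y _
  exact h1

private theorem TJ_top {y L h : ℕ} (hy : y < 2 ^ L) (hh : h ≤ L) :
    (y / 2 ^ h + 1) * 2 ^ h ≤ 2 ^ L := by
  have h1 := TJ_up y hh
  rwa [Nat.div_eq_of_lt hy, zero_add, one_mul] at h1

/-- **The region contains its gap.**  `s = gp y j` (`gp_yk`), `s ≤ y` iff `b = 1`
(`path_gap`).
Left gap: `s = y / 2 ^ j * 2 ^ j` (`gp_left`).  `ra = y / 2 ^ h * 2 ^ h ≤ s` as `j < h`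
(`lev_lt_hh`), and not equal, as `2 ^ (j + 1)` divides `ra` but not `s`.  If `p < K`: the level
`i < j` of `pr_low` is `≥ l` and has bit `1`: `rb = y / 2 ^ l * 2 ^ l ≥ y / 2 ^ i * 2 ^ i > s` (the
middle number is `gp y i`, of level `i < j`, so it is `≠ s`, and it is `≥ y / 2 ^ j * 2 ^ j`), and
`rb ≤ y < 2 ^ L`.  If `K ≤ p`: `rb = (y / 2 ^ h + 1) 2 ^ h > y ≥ s`, and `rb ≤ 2 ^ L` as `y < 2 ^ L`
and `h ≤ eta ≤ L`.
Right gap: `s = (y / 2 ^ j + 1) * 2 ^ j` (`gp_right`), `rb = (y / 2 ^ h + 1) 2 ^ h ≥ s` as `j < h`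
and not equal for the same reason.  If `K ≤ p`: `ra = y < s`.  If `p < K`: `i` has bit `0` and
`ra = (y / 2 ^ l + 1) 2 ^ l ≤ (y / 2 ^ i + 1) 2 ^ i < s`. -/
theorem region_mem {L K : ℕ} {Y : ℕ → ℕ → ℕ} (hY : Con Y) (hK : L ≤ 2 ^ K) {s : ℕ} (h0 : 0 < s)
    (hs : s < 2 ^ L) : ra L K Y s < s ∧ s < rb L K Y s ∧ rb L K Y s ≤ 2 ^ L := by
  have hjh := lev_lt_hh K hY h0 hs (L := L)
  have hyL := yk_lt hY h0 hs
  have hhL : hh L K Y s ≤ L := le_trans (min_le_right _ _) et_le
  have hnd : ¬ 2 ^ (lev s + 1) ∣ s := fun h => by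
    have := lev_ge h0 h
    omega
  have htop : ∀ b : ℕ, 2 ^ hh L K Y s * b ≠ s := by
    intro b hb
    have h : 2 ^ (lev s + 1) ∣ 2 ^ hh L K Y s * b := Dvd.dvd.mul_right (pow_dvd_pow 2 hjh) b
    rw [hb] at h
    exact hnd h
  rcases path_gap h0 (yk_div hY s) with ⟨h1, h2, h3⟩ | ⟨h1, h2, h3⟩
  · have hra : ra L K Y s = yk Y s / 2 ^ hh L K Y s * 2 ^ hh L K Y s := if_pos h1
    have h4 : ra L K Y s < s := by
      have h5 : ra L K Y s ≤ s := by
        rw [hra]
        conv_rhs => rw [h3]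
        exact TJ_down _ hjh.le
      refine lt_of_le_of_ne h5 ?_
      rw [hra, mul_comm]
      exact htop _
    refine ⟨h4, ?_⟩
    by_cases hp : pp K Y s < K
    · have hrb : rb L K Y s = yk Y s / 2 ^ lo (pp K Y s) (lev s) * 2 ^ lo (pp K Y s) (lev s) :=
        if_pos ⟨h1, hp⟩
      obtain ⟨i, hi1, hi2, hi3⟩ := pr_low (K := K) (y := yk Y s) (j := lev s)
        (lt_of_lt_of_le hp (Nat.le_add_right _ _))
      have hli : lo (pp K Y s) (lev s) ≤ i := (mem_iff.2 hi2).1
      have h6 := TJ_down (yk Y s) hli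
      have h7 := TJ_down (yk Y s) hi1.le
      have h8 : yk Y s / 2 ^ i * 2 ^ i ≠ s := by
        intro h9
        rw [← gp_left (hi3.trans h2)] at h9
        have h10 := lev_gp (yk Y s) i
        rw [h9] at h10
        omega
      rw [hrb]
      constructor
      · rw [← h3] at h7
        exact lt_of_lt_of_le (lt_of_le_of_ne h7 (Ne.symm h8)) h6
      · exact le_trans (Nat.div_mul_le_self _ _) hyL.le
    · have hrb : rb L K Y s = (yk Y s / 2 ^ hh L K Y s + 1) * 2 ^ hh L K Y s :=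
        if_neg (fun h => hp h.2)
      rw [hrb]
      exact ⟨lt_of_le_of_lt h1 (TJ_lt _ _), TJ_top hyL hhL⟩
  · have hrb : rb L K Y s = (yk Y s / 2 ^ hh L K Y s + 1) * 2 ^ hh L K Y s :=
      if_neg (fun h => absurd h.1 (not_le.2 h1))
    have h4 : s < rb L K Y s := by
      have h5 : s ≤ rb L K Y s := by
        rw [hrb]
        conv_lhs => rw [h3]
        exact TJ_up _ hjh.le
      refine lt_of_le_of_ne h5 ?_
      rw [hrb, mul_comm]
      exact (htop _).symm
    have h5 : rb L K Y s ≤ 2 ^ L := by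
      rw [hrb]
      exact TJ_top hyL hhL
    refine ⟨?_, h4, h5⟩
    by_cases hp : K ≤ pp K Y s
    · have hra : ra L K Y s = yk Y s := by
        unfold ra
        rw [if_neg (not_le.2 h1), if_pos hp]
      rw [hra]
      exact h1
    · have hra : ra L K Y s =
          (yk Y s / 2 ^ lo (pp K Y s) (lev s) + 1) * 2 ^ lo (pp K Y s) (lev s) := by
        unfold ra
        rw [if_neg (not_le.2 h1), if_neg hp]
      have hp' : pp K Y s < K := not_le.1 hp
      obtain ⟨i, hi1, hi2, hi3⟩ := pr_low (K := K) (y := yk Y s) (j := lev s)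
        (lt_of_lt_of_le hp' (Nat.le_add_right _ _))
      have hli : lo (pp K Y s) (lev s) ≤ i := (mem_iff.2 hi2).1
      have h6 := TJ_up (yk Y s) hli
      have h7 := TJ_up (yk Y s) hi1.le
      have h8 : (yk Y s / 2 ^ i + 1) * 2 ^ i ≠ s := by
        intro h9
        rw [← gp_right (hi3.trans h2)] at h9
        have h10 := lev_gp (yk Y s) i
        rw [h9] at h10
        omega
      rw [hra]
      rw [← h3] at h7
      exact lt_of_le_of_lt h6 (lt_of_le_of_ne h7 h8)

/-- The region is in the block of `y` of length `2 ^ h`.  [`l ≤ h` and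
`y / 2 ^ h * 2 ^ h ≤ y / 2 ^ l * 2 ^ l ≤ y`, `y < (y / 2 ^ l + 1) 2 ^ l ≤ (y / 2 ^ h + 1) 2 ^ h`.] -/
theorem region_sub {L K : ℕ} {Y : ℕ → ℕ → ℕ} (hY : Con Y) {s : ℕ} (h0 : 0 < s)
    (hs : s < 2 ^ L) :
    yk Y s / 2 ^ hh L K Y s * 2 ^ hh L K Y s ≤ ra L K Y s ∧
      rb L K Y s ≤ (yk Y s / 2 ^ hh L K Y s + 1) * 2 ^ hh L K Y s := by
  have hjh := lev_lt_hh K hY h0 hs (L := L)
  have hlj : lo (pp K Y s) (lev s) ≤ lev s := lo_le _ _
  rcases path_gap h0 (yk_div hY s) with ⟨h1, h2, h3⟩ | ⟨h1, h2, h3⟩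
  · have hra : ra L K Y s = yk Y s / 2 ^ hh L K Y s * 2 ^ hh L K Y s := if_pos h1
    refine ⟨hra.ge, ?_⟩
    by_cases hp : pp K Y s < K
    · have hrb : rb L K Y s = yk Y s / 2 ^ lo (pp K Y s) (lev s) * 2 ^ lo (pp K Y s) (lev s) :=
        if_pos ⟨h1, hp⟩
      rw [hrb]
      exact le_trans (Nat.div_mul_le_self _ _) (TJ_lt _ _).le
    · have hrb : rb L K Y s = (yk Y s / 2 ^ hh L K Y s + 1) * 2 ^ hh L K Y s :=
        if_neg (fun h => hp h.2)
      exact hrb.le
  · have hrb : rb L K Y s = (yk Y s / 2 ^ hh L K Y s + 1) * 2 ^ hh L K Y s :=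
      if_neg (fun h => absurd h.1 (not_le.2 h1))
    refine ⟨?_, hrb.le⟩
    by_cases hp : K ≤ pp K Y s
    · have hra : ra L K Y s = yk Y s := by
        unfold ra
        rw [if_neg (not_le.2 h1), if_pos hp]
      rw [hra]
      exact Nat.div_mul_le_self _ _
    · have hra : ra L K Y s =
          (yk Y s / 2 ^ lo (pp K Y s) (lev s) + 1) * 2 ^ lo (pp K Y s) (lev s) := by
        unfold ra
        rw [if_neg (not_le.2 h1), if_neg hp]
      rw [hra]
      exact le_trans (Nat.div_mul_le_self _ _) (TJ_lt _ _).le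

/-- TK: the gap `gp y w` of the lowest level of the interval is higher than `s`. -/
private theorem TK_path {L K : ℕ} {Y : ℕ → ℕ → ℕ} (hY : Con Y) {s w : ℕ}
    (h0 : 0 < s) (hs : s < 2 ^ L) (hwj : w < lev s)
    (hwI : w / 2 ^ (pr K (yk Y s) (lev s) + 1) = lev s / 2 ^ (pr K (yk Y s) (lev s) + 1))
    (hwp : pr K (yk Y s) (lev s) < pr K (yk Y s) w) :
    om L K Y s < om L K Y (gp (yk Y s) w) := by
  have hwe : w < et L Y (yk Y s) := lt_trans hwj (lev_lt_et hY h0 hs)
  have hyw : yk Y (gp (yk Y s) w) = yk Y s := yk_gp hY hwe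
  have hpw : pp K Y (gp (yk Y s) w) = pr K (yk Y s) w := by
    unfold pp; rw [hyw, lev_gp]
  refine om_path hY hyw.symm ?_ (by rw [hpw]; exact hwp)
  unfold hh
  rw [hpw, hyw, lev_gp]
  refine min_le_min ?_ (le_refl _)
  have h1 : hi (pr K (yk Y s) (lev s)) w = hi (pr K (yk Y s) (lev s)) (lev s) := hi_congr hwI
  have h2 : hi (pr K (yk Y s) (lev s)) w ≤ hi (pr K (yk Y s) w) w := hi_mono hwp.le
  unfold pp
  rw [← h1]
  exact h2

/-- **The left end is higher.**  Left gap: `ra = y / 2 ^ h * 2 ^ h`: `om_outer`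
(`ra ≤ y < 2 ^ L`).  Right gap, `p < K`: `w` from `pr_bottom`; all bits in `[l, w)` are `1`
(not `0`), so `ra = (y / 2 ^ l + 1) 2 ^ l = (y / 2 ^ w + 1) 2 ^ w = gp y w` (`fill_eq`, `gp_right`);
its key is `y` (`yk_gp`, `w < j < eta`), its level `w` (`lev_gp`), its priority `> p`, and
`hh (gp y w) = min (hi (pr w) w) eta ≥ min (hi p w) eta = min (hi p j) eta` (`hi_mono`,
`hi_congr`): `om_path`.
Right gap, `K ≤ p` (so `p = K`, no level below `j` has bit `0`... only `p = K` is needed;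
`h = eta` by `hh_top`): `ra = y`.  If a bit of `y` at a level `< eta` is `1`, let `w` be the least
one: `y = y / 2 ^ w * 2 ^ w = gp y w` (`clear_eq` with `l = 0`, `gp_left`), its priority is
`K + 1` (`pr_cases`: it is not `< K`, since `pr_low` would give a lower level with bit `1`), and its
`hh` is `eta` (`hh_top`): `om_path`.  Otherwise `y = y / 2 ^ eta * 2 ^ eta` (`clear_eq`): `om_outer`
(or `y = 0`). -/
theorem region_ra {L K : ℕ} {Y : ℕ → ℕ → ℕ} (hY : Con Y) (hK : L ≤ 2 ^ K) {s : ℕ} (h0 : 0 < s)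
    (hs : s < 2 ^ L) : ra L K Y s = 0 ∨ om L K Y s < om L K Y (ra L K Y s) := by
  have hyL := yk_lt hY h0 hs
  have hje := lev_lt_et hY h0 hs
  by_cases hle : s ≤ yk Y s
  · have e : ra L K Y s = yk Y s / 2 ^ hh L K Y s * 2 ^ hh L K Y s := by
      unfold ra; rw [if_pos hle]
    rcases Nat.eq_zero_or_pos (ra L K Y s) with h | h
    · exact Or.inl h
    · refine Or.inr (om_outer hY h ?_ ?_)
      · rw [e]; exact lt_of_le_of_lt (Nat.div_mul_le_self _ _) hyL
      · rw [e]; exact Dvd.intro_left _ rfl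
  · have hlt : yk Y s < s := Nat.lt_of_not_le hle
    have hbit : (yk Y s).testBit (lev s) = false := by
      rcases path_gap h0 (yk_div hY s) with h | h
      · exact absurd h.1 hle
      · exact h.2.1
    by_cases hp : K ≤ pp K Y s
    · have e : ra L K Y s = yk Y s := by
        unfold ra; rw [if_neg hle, if_pos hp]
      have hpK : pp K Y s = K := by
        have h1 := pr_le_top K (yk Y s) (lev s)
        rw [hbit] at h1
        have h2 : pp K Y s ≤ K := by simpa [pp] using h1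
        omega
      have hhe := hh_top (L := L) hK hp
      rw [e]
      by_cases hw : ∃ w, w < et L Y (yk Y s) ∧ (yk Y s).testBit w = true
      · classical
        obtain ⟨hw1, hw2⟩ := Nat.find_spec hw
        have hmin : ∀ i, i < Nat.find hw → (yk Y s).testBit i = false := by
          intro i hi
          have h1 := Nat.find_min hw hi
          rcases h2 : (yk Y s).testBit i with _ | _
          · rfl
          · exact absurd ⟨lt_trans hi hw1, h2⟩ h1
        generalize Nat.find hw = w at hw1 hw2 hmin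
        have hg : gp (yk Y s) w = yk Y s := by
          rw [gp_left hw2, ← clear_eq (Nat.zero_le w) (fun i _ hi => hmin i hi)]
          simp
        have hyw : yk Y (gp (yk Y s) w) = yk Y s := yk_gp hY hw1
        have hw2K : w < 2 ^ K := lt_of_lt_of_le (lt_of_lt_of_le hw1 et_le) hK
        have hpw : pp K Y (gp (yk Y s) w) = K + 1 := by
          have e1 : pp K Y (gp (yk Y s) w) = pr K (yk Y s) w := by
            unfold pp; rw [hyw, lev_gp]
          rw [e1]
          rcases pr_cases (y := yk Y s) hw2K with h | h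
          · exfalso
            obtain ⟨i, hi, _, hb⟩ := pr_low (lt_of_lt_of_le h (Nat.le_add_right _ _))
            rw [hmin i hi, hw2] at hb
            exact Bool.noConfusion hb
          · rw [h.1, hw2]; rfl
        have hhw : hh L K Y (gp (yk Y s) w) = et L Y (yk Y s) := by
          rw [hh_top (L := L) hK (by rw [hpw]; exact Nat.le_succ K), hyw]
        right
        have := om_path hY (L := L) (K := K) (s := gp (yk Y s) w) (r := s) hyw.symm
          (by rw [hhw, hhe]) (by rw [hpw, hpK]; exact Nat.lt_succ_self K)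
        rwa [hg] at this
      · have hall : ∀ i, 0 ≤ i → i < et L Y (yk Y s) → (yk Y s).testBit i = false := by
          intro i _ hi
          rcases h2 : (yk Y s).testBit i with _ | _
          · rfl
          · exact absurd ⟨i, hi, h2⟩ hw
        have hc := clear_eq (Nat.zero_le (et L Y (yk Y s))) hall
        rw [pow_zero, Nat.div_one, Nat.mul_one] at hc
        rcases Nat.eq_zero_or_pos (yk Y s) with h | h
        · exact Or.inl h
        · refine Or.inr (om_outer hY h hyL ?_)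
          rw [hhe]
          exact Dvd.intro_left _ hc.symm
    · have hpK : pp K Y s < K := Nat.lt_of_not_le hp
      have e : ra L K Y s = (yk Y s / 2 ^ lo (pp K Y s) (lev s) + 1) *
          2 ^ lo (pp K Y s) (lev s) := by
        unfold ra; rw [if_neg hle, if_neg hp]
      obtain ⟨w, hwj, hlw, hwI, hwb, hwa, hwp⟩ := pr_bottom (K := K) (y := yk Y s) (j := lev s) hpK
      rw [hbit] at hwb
      have hf : (yk Y s / 2 ^ lo (pp K Y s) (lev s) + 1) * 2 ^ lo (pp K Y s) (lev s) =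
          gp (yk Y s) w := by
        rw [gp_right hwb]
        refine fill_eq hlw ?_
        intro i h1 h2
        have h3 := hwa i h1 h2
        rw [hbit] at h3
        rcases h4 : (yk Y s).testBit i with _ | _
        · exact absurd h4 h3
        · rfl
      right
      rw [e, hf]
      exact TK_path hY h0 hs hwj hwI hwp

/-- **The right end is higher.**  Not (left gap and `p < K`): `rb = (y / 2 ^ h + 1)
2 ^ h ≤ 2 ^ L`, `om_outer` if it is `< 2 ^ L`.  Left gap, `p < K`: as in `region_ra`, with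
`clear_eq` and `gp_left`: `rb = y / 2 ^ l * 2 ^ l = y / 2 ^ w * 2 ^ w = gp y w`. -/
theorem region_rb {L K : ℕ} {Y : ℕ → ℕ → ℕ} (hY : Con Y) (hK : L ≤ 2 ^ K) {s : ℕ} (h0 : 0 < s)
    (hs : s < 2 ^ L) : rb L K Y s = 2 ^ L ∨ om L K Y s < om L K Y (rb L K Y s) := by
  have hyL := yk_lt hY h0 hs
  by_cases hc : s ≤ yk Y s ∧ pp K Y s < K
  · obtain ⟨hle, hpK⟩ := hc
    have hbit : (yk Y s).testBit (lev s) = true := by
      rcases path_gap h0 (yk_div hY s) with h | h
      · exact h.2.1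
      · exact absurd h.1 (Nat.not_lt.mpr hle)
    have e : rb L K Y s = yk Y s / 2 ^ lo (pp K Y s) (lev s) * 2 ^ lo (pp K Y s) (lev s) := by
      unfold rb; rw [if_pos ⟨hle, hpK⟩]
    obtain ⟨w, hwj, hlw, hwI, hwb, hwa, hwp⟩ := pr_bottom (K := K) (y := yk Y s) (j := lev s) hpK
    rw [hbit] at hwb
    have hf : yk Y s / 2 ^ lo (pp K Y s) (lev s) * 2 ^ lo (pp K Y s) (lev s) =
        gp (yk Y s) w := by
      rw [gp_left hwb]
      refine clear_eq hlw ?_
      intro i h1 h2
      have h3 := hwa i h1 h2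
      rw [hbit] at h3
      rcases h4 : (yk Y s).testBit i with _ | _
      · rfl
      · exact absurd h4 h3
    right
    rw [e, hf]
    exact TK_path hY h0 hs hwj hwI hwp
  · have e : rb L K Y s = (yk Y s / 2 ^ hh L K Y s + 1) * 2 ^ hh L K Y s := by
      unfold rb; rw [if_neg hc]
    have hhL : hh L K Y s ≤ L := le_trans (min_le_right _ _) et_le
    have hle : rb L K Y s ≤ 2 ^ L := by
      rw [e]
      have h1 : 2 ^ L = 2 ^ (L - hh L K Y s) * 2 ^ hh L K Y s := by
        rw [← pow_add, Nat.sub_add_cancel hhL]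
      rw [h1]
      refine Nat.mul_le_mul_right _ ?_
      refine Nat.succ_le_of_lt (Nat.div_lt_of_lt_mul ?_)
      rw [Nat.mul_comm, ← h1]
      exact hyL
    rcases Nat.lt_or_ge (rb L K Y s) (2 ^ L) with h | h
    · right
      refine om_outer hY ?_ h ?_
      · rw [e]; exact Nat.mul_pos (Nat.succ_pos _) (Nat.pow_pos (by norm_num))
      · rw [e]; exact Dvd.intro_left _ rfl
    · exact Or.inl (le_antisymm hle h)

/-- **Inside of the region.**  `s ≤ y` iff `b = 1` (`path_gap`).  If `p < K`: for a left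
gap `mem_left` (with `h`, `l`), for a right gap `mem_right`, then `inside_low`.  If `K ≤ p`:
`h = eta` (`hh_top`), and `r` is strictly between two consecutive multiples of `2 ^ eta`
(`region_sub`), so `r` and `r - 1` have the quotient of `y` by `2 ^ eta`; for a right gap
`y = ra < r`; then `inside_top`. -/
theorem region_inside {L K : ℕ} {Y : ℕ → ℕ → ℕ} (hY : Con Y) (hK : L ≤ 2 ^ K) {s r : ℕ}
    (h0 : 0 < s) (hs : s < 2 ^ L) (h1 : ra L K Y s < r) (h2 : r < rb L K Y s) :
    r = s ∨ om L K Y r < om L K Y s ∧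
      ((yk Y r = yk Y s ∧ (K ≤ pp K Y s ∨
          pp K Y r < pp K Y s ∧ hi (pp K Y r) (lev r) ≤ hi (pp K Y s) (lev s) ∧
          lo (pp K Y s) (lev s) ≤ lo (pp K Y r) (lev r))) ∨
        ∃ i, lev r < i ∧ (K ≤ pp K Y s ∨ lo (pp K Y s) (lev s) ≤ i) ∧ i < hh L K Y s ∧
          r / 2 ^ (i + 1) = yk Y s / 2 ^ (i + 1) ∧ r / 2 ^ i ≠ yk Y s / 2 ^ i) := by
  have hr : 0 < r := by omega
  rcases Nat.lt_or_ge (pp K Y s) K with hp | hp
  · rcases path_gap h0 (yk_div hY s) with ⟨hle, hb, -⟩ | ⟨hlt, hb, -⟩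
    · have h1' : yk Y s / 2 ^ hh L K Y s * 2 ^ hh L K Y s < r := by
        rw [ra, if_pos hle] at h1; exact h1
      have h2' : r < yk Y s / 2 ^ lo (pp K Y s) (lev s) * 2 ^ lo (pp K Y s) (lev s) := by
        rw [rb, if_pos ⟨hle, hp⟩] at h2; exact h2
      obtain ⟨m1, m2, m3⟩ := mem_left h1' h2'
      have h3 := inside_low (r := r) hY hK h0 hs hp hr (by rw [hb]; exact m1)
        (by rw [hb]; exact m2) (by rw [hb]; exact m3)
      rcases h3 with h3 | ⟨h3, ⟨h4, h5, h6, h7⟩ | ⟨i, h4, h5, h6, h7, h8⟩⟩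
      · exact Or.inl h3
      · exact Or.inr ⟨h3, Or.inl ⟨h4, Or.inr ⟨h5, h6, h7⟩⟩⟩
      · exact Or.inr ⟨h3, Or.inr ⟨i, h4, Or.inr h5, h6, h7, h8⟩⟩
    · have hle : ¬ s ≤ yk Y s := by omega
      have h1' : (yk Y s / 2 ^ lo (pp K Y s) (lev s) + 1) * 2 ^ lo (pp K Y s) (lev s) < r := by
        rw [ra, if_neg hle, if_neg (by omega)] at h1; exact h1
      have h2' : r < (yk Y s / 2 ^ hh L K Y s + 1) * 2 ^ hh L K Y s := by
        rw [rb, if_neg (fun h => hle h.1)] at h2; exact h2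
      obtain ⟨m1, m2, m3⟩ := mem_right h1' h2'
      have h3 := inside_low (r := r) hY hK h0 hs hp hr (by rw [hb]; exact m1)
        (by rw [hb]; exact m2) (by rw [hb]; exact m3)
      rcases h3 with h3 | ⟨h3, ⟨h4, h5, h6, h7⟩ | ⟨i, h4, h5, h6, h7, h8⟩⟩
      · exact Or.inl h3
      · exact Or.inr ⟨h3, Or.inl ⟨h4, Or.inr ⟨h5, h6, h7⟩⟩⟩
      · exact Or.inr ⟨h3, Or.inr ⟨i, h4, Or.inr h5, h6, h7, h8⟩⟩
  · obtain ⟨s1, s2⟩ := region_sub (L := L) (K := K) hY h0 hs
    rw [hh_top hK hp] at s1 s2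
    have hpos : 0 < 2 ^ et L Y (yk Y s) := by positivity
    have hq : r / 2 ^ et L Y (yk Y s) = yk Y s / 2 ^ et L Y (yk Y s) := by
      refine Nat.div_eq_of_lt_le ?_ ?_
      · omega
      · omega
    have hq' : (r - 1) / 2 ^ et L Y (yk Y s) = yk Y s / 2 ^ et L Y (yk Y s) := by
      refine Nat.div_eq_of_lt_le ?_ ?_
      · omega
      · omega
    have h1' : (yk Y s).testBit (lev s) = false → yk Y s < r := by
      intro hb
      rcases path_gap h0 (yk_div hY s) with ⟨hle, hb', -⟩ | ⟨hlt, -, -⟩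
      · rw [hb'] at hb; exact absurd hb (by decide)
      · have hle : ¬ s ≤ yk Y s := by omega
        rw [ra, if_neg hle, if_pos hp] at h1
        exact h1
    rcases inside_top (r := r) hY hK h0 hs hp hr h1' hq' hq with h3 | ⟨h3, h4 | ⟨i, h4, h5, h6⟩⟩
    · exact Or.inl h3
    · exact Or.inr ⟨h3, Or.inl ⟨h4, Or.inl hp⟩⟩
    · exact Or.inr ⟨h3, Or.inr ⟨i, h4, Or.inl hp, h5, h6⟩⟩

/-- **Equal heights are separated.**  `r = rb s`: by `region_inside` `s'` is not inside
the region of `s`, so `rb s ≤ s' < 2 ^ L`, hence `om s < om (rb s)` and `rb s ≠ s'`. -/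
theorem om_sep {L K : ℕ} {Y : ℕ → ℕ → ℕ} (hY : Con Y) (hK : L ≤ 2 ^ K) {s s' : ℕ}
    (h0 : 0 < s) (h : s < s') (hs : s' < 2 ^ L) (he : om L K Y s = om L K Y s') :
    ∃ r, s < r ∧ r < s' ∧ om L K Y s < om L K Y r := by
  have hs' : s < 2 ^ L := by omega
  obtain ⟨g1, g2, g3⟩ := region_mem hY hK h0 hs'
  have g4 : rb L K Y s ≤ s' := by
    by_contra hc
    rcases region_inside (r := s') hY hK h0 hs' (by omega) (by omega) with h5 | ⟨h5, -⟩
    · omega
    · omega
  rcases region_rb hY hK h0 hs' with h5 | h5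
  · omega
  · refine ⟨rb L K Y s, g2, ?_, h5⟩
    rcases Nat.lt_or_ge (rb L K Y s) s' with h6 | h6
    · exact h6
    · have h7 : rb L K Y s = s' := by omega
      rw [h7] at h5
      omega

end Pool.Agent.SplTgo
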