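import Pool.Agent.SplTgo.Keys

set_option autoImplicit false

/-!
## States

`gp y j` is the gap of level `j` whose block contains the key `y`.
-/

namespace Pool.Agent.SplTgo

/-- The gap of level `j` whose block contains the key `y`. -/
def gp (y j : ℕ) : ℕ := (2 * (y / 2 ^ (j + 1)) + 1) * 2 ^ j

/-- The initial state is consistent.  [`blk`: `Nat.mul_div_cancel`.  `sub`: with
`y = i * 2 ^ (j + 1)` and `j' ≤ j`, `2 ^ (j' + 1) ∣ y`, so `y / 2 ^ (j' + 1) * 2 ^ (j' + 1) = y`.] -/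
theorem con_init : Con (fun j i => i * 2 ^ (j + 1)) := by
  constructor
  · intro j i
    simp
  · intro j i j' h
    show i * 2 ^ (j + 1) / 2 ^ (j' + 1) * 2 ^ (j' + 1) = i * 2 ^ (j + 1)
    apply Nat.div_mul_cancel
    exact Dvd.dvd.mul_left (pow_dvd_pow 2 (by omega)) i

/-- A request keeps a state consistent.  [`blk`: two cases.  `sub`: let
`x / 2 ^ (j + 1) = i`: then `nx Y x j i = x`, and `nx Y x j' (x / 2 ^ (j' + 1)) = x`.  Otherwise
`z = Y j i` has `z / 2 ^ (j + 1) = i ≠ x / 2 ^ (j + 1)`, so `z / 2 ^ (j' + 1) ≠ x / 2 ^ (j' + 1)`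
(`div_mono`) and `nx Y x j' (z / 2 ^ (j' + 1)) = Y j' (z / 2 ^ (j' + 1)) = z`.] -/
theorem con_nx {Y : ℕ → ℕ → ℕ} (hY : Con Y) (x : ℕ) : Con (nx Y x) := by
  constructor
  · intro j i
    unfold nx
    split_ifs with h
    · exact h
    · exact hY.blk j i
  · intro j i j' h
    unfold nx
    by_cases h1 : x / 2 ^ (j + 1) = i
    · rw [if_pos h1, if_pos rfl]
    · rw [if_neg h1]
      have h2 : x / 2 ^ (j' + 1) ≠ Y j i / 2 ^ (j' + 1) := by
        intro h3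
        apply h1
        have := div_mono (p := j + 1) (q := j' + 1) (by omega) h3
        rw [this, hY.blk]
      rw [if_neg h2]
      exact hY.sub j i j' h

/-- -/
theorem con_st {Y : ℕ → ℕ → ℕ} (hY : Con Y) (X : ℕ → ℕ) (t : ℕ) : Con (st Y X t) := by
  induction t with
  | zero => exact hY
  | succ t ih => exact con_nx ih _

private theorem TF_range {S : Finset ℕ} (hS : ∀ j ∈ S, ∀ i, i ≤ j → i ∈ S) :
    S = Finset.range S.card := by
  have h : ∀ j ∈ S, j < S.card := by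
    intro j hj
    have h1 : Finset.range (j + 1) ⊆ S := by
      intro i hi
      exact hS j hj i (by simpa [Nat.lt_succ_iff] using hi)
    have := Finset.card_le_card h1
    simpa using this
  apply Finset.eq_of_subset_of_card_le
  · intro j hj
    exact Finset.mem_range.2 (h j hj)
  · simp

/-- The levels of the path of `y` are the numbers below `et`.  [The set
`{j < L | Y j (y / 2 ^ (j + 1)) = y}` is closed downwards by `Con.sub` (with `i = y / 2 ^ (j + 1)`),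
so it is `Finset.range` of its cardinality.] -/
theorem lt_et {L : ℕ} {Y : ℕ → ℕ → ℕ} (hY : Con Y) {y j : ℕ} :
    j < et L Y y ↔ j < L ∧ Y j (y / 2 ^ (j + 1)) = y := by
  have h := TF_range (S := (Finset.range L).filter (fun j => Y j (y / 2 ^ (j + 1)) = y)) (by
    intro a ha i hi
    rw [Finset.mem_filter, Finset.mem_range] at ha ⊢
    refine ⟨by omega, ?_⟩
    have := hY.sub a (y / 2 ^ (a + 1)) i hi
    rw [ha.2] at this
    exact this)
  have h2 : j ∈ (Finset.range L).filter (fun j => Y j (y / 2 ^ (j + 1)) = y) ↔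
      j ∈ Finset.range ((Finset.range L).filter (fun j => Y j (y / 2 ^ (j + 1)) = y)).card := by
    rw [← h]
  rw [Finset.mem_filter, Finset.mem_range, Finset.mem_range] at h2
  exact h2.symm

/-- -/
theorem et_le {L : ℕ} {Y : ℕ → ℕ → ℕ} {y : ℕ} : et L Y y ≤ L := by
  unfold et
  calc _ ≤ (Finset.range L).card := Finset.card_filter_le _ _
    _ = L := by simp

/-- -/
theorem yk_div {Y : ℕ → ℕ → ℕ} (hY : Con Y) (s : ℕ) :
    yk Y s / 2 ^ (lev s + 1) = s / 2 ^ (lev s + 1) := hY.blk _ _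

/-- [`lt_et`, `lev_lt`, `yk_div`.] -/
theorem lev_lt_et {L : ℕ} {Y : ℕ → ℕ → ℕ} (hY : Con Y) {s : ℕ} (h0 : 0 < s) (hs : s < 2 ^ L) :
    lev s < et L Y (yk Y s) := by
  rw [lt_et hY, yk_div hY]
  exact ⟨lev_lt h0 hs, rfl⟩

/-- [`lev_odd`.] -/
theorem lev_gp (y j : ℕ) : lev (gp y j) = j := lev_odd _ _

/-- [`(2 i + 1) 2 ^ j / 2 ^ (j + 1) = i`.] -/
theorem gp_div (y j : ℕ) : gp y j / 2 ^ (j + 1) = y / 2 ^ (j + 1) := by
  unfold gp
  have h : (2 * (y / 2 ^ (j + 1)) + 1) * 2 ^ j = 2 ^ j + 2 ^ (j + 1) * (y / 2 ^ (j + 1)) := by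
    ring
  rw [h, Nat.add_mul_div_left _ _ (by positivity), Nat.div_eq_of_lt, zero_add]
  exact Nat.pow_lt_pow_right (by norm_num) (by omega)

/-- Every gap is `gp (yk Y s) (lev s)`.  [`gap_eq`, `yk_div`.] -/
theorem gp_yk {Y : ℕ → ℕ → ℕ} (hY : Con Y) {s : ℕ} (h0 : 0 < s) : gp (yk Y s) (lev s) = s := by
  unfold gp
  rw [yk_div hY]
  exact (gap_eq h0).symm

/-- [`lev_gp`, `gp_div`, `lt_et`.] -/
theorem yk_gp {L : ℕ} {Y : ℕ → ℕ → ℕ} (hY : Con Y) {y j : ℕ} (h : j < et L Y y) :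
    yk Y (gp y j) = y := by
  unfold yk
  rw [lev_gp, gp_div]
  exact ((lt_et hY).1 h).2

/-- `0 < gp y j < 2 ^ L` for `j < L`, `y < 2 ^ L`.  [`y / 2 ^ (j + 1) < 2 ^ (L - j - 1)`,
so `(2 q + 1) 2 ^ j < (2 q + 2) 2 ^ j ≤ 2 ^ L`.] -/
theorem gp_lt {L y j : ℕ} (hy : y < 2 ^ L) (hj : j < L) : 0 < gp y j ∧ gp y j < 2 ^ L := by
  refine ⟨by unfold gp; positivity, ?_⟩
  have h1 : y / 2 ^ (j + 1) < 2 ^ (L - (j + 1)) := by
    rw [Nat.div_lt_iff_lt_mul (by positivity), ← pow_add]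
    rwa [show L - (j + 1) + (j + 1) = L by omega]
  have h2 : 2 ^ L = 2 ^ (L - (j + 1)) * 2 * 2 ^ j := by
    rw [mul_assoc, ← pow_succ', ← pow_add]
    congr 1
    omega
  unfold gp
  rw [h2]
  apply Nat.mul_lt_mul_of_pos_right _ (by positivity)
  omega

private theorem TF_two (y j : ℕ) : y / 2 ^ j = 2 * (y / 2 ^ (j + 1)) + y / 2 ^ j % 2 := by
  rw [pow_succ, ← Nat.div_div_eq_div_mul]
  omega

/-- Bit `1`: the gap is `y / 2 ^ j * 2 ^ j ≤ y`.  [`y / 2 ^ j = 2 (y / 2 ^ (j + 1)) + 1`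
(`Nat.testBit_iff...`: `y.testBit j = true ↔ y / 2 ^ j % 2 = 1`).] -/
theorem gp_left {y j : ℕ} (h : y.testBit j = true) : gp y j = y / 2 ^ j * 2 ^ j := by
  rw [Nat.testBit_eq_decide_div_mod_eq, decide_eq_true_iff] at h
  unfold gp
  rw [TF_two y j, h]

/-- Bit `0`: the gap is `(y / 2 ^ j + 1) * 2 ^ j > y`. -/
theorem gp_right {y j : ℕ} (h : y.testBit j = false) : gp y j = (y / 2 ^ j + 1) * 2 ^ j := by
  rw [Nat.testBit_eq_decide_div_mod_eq, decide_eq_false_iff_not] at h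
  unfold gp
  have : y / 2 ^ j % 2 = 0 := by omega
  rw [TF_two y j, this]

/-- The keys of a block below `2 ^ L` are below `2 ^ L`.  [`yk / 2 ^ (lev s + 1) =
s / 2 ^ (lev s + 1)`, so the quotients by `2 ^ L` are equal as well (`lev s + 1 ≤ L`, `div_mono`).] -/
theorem yk_lt {L : ℕ} {Y : ℕ → ℕ → ℕ} (hY : Con Y) {s : ℕ} (h0 : 0 < s) (hs : s < 2 ^ L) :
    yk Y s < 2 ^ L := by
  have h1 := lev_lt h0 hs
  have h2 := div_mono (show lev s + 1 ≤ L by omega) (yk_div hY s)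
  rw [Nat.div_eq_of_lt hs] at h2
  rcases Nat.div_eq_zero_iff.1 h2 with h | h
  · exact absurd h (by positivity)
  · exact h

/-- `lev s + 1 ≤ hh`.  [`lt_hi`, `lev_lt_et`.] -/
theorem lev_lt_hh {L : ℕ} (K : ℕ) {Y : ℕ → ℕ → ℕ} (hY : Con Y) {s : ℕ} (h0 : 0 < s)
    (hs : s < 2 ^ L) : lev s < hh L K Y s := by
  unfold hh
  exact lt_min (lt_hi _ _) (lev_lt_et hY h0 hs)

/-- [`pr_le_top`.] -/
theorem pp_le {K : ℕ} {Y : ℕ → ℕ → ℕ} {s : ℕ} : pp K Y s ≤ K + 1 := by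
  unfold pp
  have h := pr_le_top K (yk Y s) (lev s)
  have h1 : ((yk Y s).testBit (lev s)).toNat ≤ 1 := Bool.toNat_le _
  omega

/-- Lower bound of the height. -/
theorem om_ge {L : ℕ} (K : ℕ) {Y : ℕ → ℕ → ℕ} (hY : Con Y) {s : ℕ} (h0 : 0 < s)
    (hs : s < 2 ^ L) : (lev s + 1) * (K + 3) ≤ om L K Y s := by
  unfold om
  have h1 := lev_lt_hh K hY h0 hs
  have h2 : (lev s + 1) * (K + 3) ≤ hh L K Y s * (K + 3) := Nat.mul_le_mul_right _ h1
  omega

/-- Upper bounds of the height. -/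
theorem om_le {L K : ℕ} {Y : ℕ → ℕ → ℕ} {s : ℕ} :
    om L K Y s < (hh L K Y s + 1) * (K + 3) ∧
      om L K Y s < (et L Y (yk Y s) + 1) * (K + 3) := by
  have h1 := pp_le (K := K) (Y := Y) (s := s)
  have h2 : hh L K Y s ≤ et L Y (yk Y s) := min_le_right _ _
  have h3 : (hh L K Y s + 1) * (K + 3) ≤ (et L Y (yk Y s) + 1) * (K + 3) :=
    Nat.mul_le_mul_right _ (by omega)
  have h4 : om L K Y s < (hh L K Y s + 1) * (K + 3) := by
    unfold om
    rw [add_mul]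
    omega
  exact ⟨h4, h4.trans_le h3⟩

/-- **Outer boundaries.**  A multiple of `2 ^ hh` is higher than `s`.  [`lev_ge` gives
`hh ≤ lev a`, so `om a ≥ (hh + 1) (K + 3) > om s`.] -/
theorem om_outer {L K : ℕ} {Y : ℕ → ℕ → ℕ} (hY : Con Y) {s a : ℕ} (h0 : 0 < a) (ha : a < 2 ^ L)
    (hd : 2 ^ hh L K Y s ∣ a) : om L K Y s < om L K Y a := by
  have h1 := lev_ge h0 hd
  have h2 := om_ge K hY h0 ha
  have h3 := (om_le (L := L) (K := K) (Y := Y) (s := s)).1
  have h4 : (hh L K Y s + 1) * (K + 3) ≤ (lev a + 1) * (K + 3) :=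
    Nat.mul_le_mul_right _ (by omega)
  omega

/-- **Gaps in the halves hanging off the path.**  Let `y` be the key of `s`, `r` a gap
whose block does not contain `y`, `i > lev r` a level of the path of `y` below `hh` with
`r / 2 ^ (i + 1) = y / 2 ^ (i + 1)` and `r / 2 ^ i ≠ y / 2 ^ i`.  The key `z` of `r` has
`z / 2 ^ i = r / 2 ^ i` and `z / 2 ^ (i + 1) = y / 2 ^ (i + 1)` (`yk_div`, `div_mono`), so
`Y i (z / 2 ^ (i + 1)) = Y i (y / 2 ^ (i + 1)) = y ≠ z` (`lt_et`) and `et z ≤ i`.  Hence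
`om r < (i + 1) (K + 3) ≤ hh (K + 3) ≤ om s`. -/
theorem om_hang {L K : ℕ} {Y : ℕ → ℕ → ℕ} (hY : Con Y) {s r i : ℕ} (hi : lev r < i)
    (hh' : i < hh L K Y s) (h1 : r / 2 ^ (i + 1) = yk Y s / 2 ^ (i + 1))
    (h2 : r / 2 ^ i ≠ yk Y s / 2 ^ i) :
    et L Y (yk Y r) ≤ i ∧ om L K Y r < om L K Y s := by
  have h3 := yk_div hY r
  have h4 : yk Y r / 2 ^ i = r / 2 ^ i := div_mono (show lev r + 1 ≤ i by omega) h3
  have h5 : yk Y r / 2 ^ (i + 1) = r / 2 ^ (i + 1) := div_mono (show lev r + 1 ≤ i + 1 by omega) h3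
  have h6 : hh L K Y s ≤ et L Y (yk Y s) := min_le_right _ _
  have h7 : et L Y (yk Y r) ≤ i := by
    by_contra hc
    have h8 := ((lt_et (L := L) hY).1 (not_le.1 hc)).2
    have h9 := ((lt_et (L := L) hY).1 (hh'.trans_le h6)).2
    rw [h5, h1, h9] at h8
    exact h2 (by rw [← h4, ← h8])
  refine ⟨h7, ?_⟩
  have h8 := (om_le (L := L) (K := K) (Y := Y) (s := r)).2
  have h9 : (et L Y (yk Y r) + 1) * (K + 3) ≤ hh L K Y s * (K + 3) :=
    Nat.mul_le_mul_right _ (by omega)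
  have h10 : hh L K Y s * (K + 3) ≤ om L K Y s := Nat.le_add_right _ _
  omega

/-- **The other gaps of the path.**  `v < et y`, `p v < p j` and (so) `hi v ≤ hi j` if
`v` is in the level interval of `j`. -/
theorem om_path {L K : ℕ} {Y : ℕ → ℕ → ℕ} (hY : Con Y) {s r : ℕ} (hr : yk Y r = yk Y s)
    (h1 : hh L K Y r ≤ hh L K Y s) (h2 : pp K Y r < pp K Y s) : om L K Y r < om L K Y s := by
  unfold om
  have h3 : hh L K Y r * (K + 3) ≤ hh L K Y s * (K + 3) := Nat.mul_le_mul_right _ h1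
  omega

end Pool.Agent.SplTgo
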