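import Pool.Agent.SplTgo.Region

set_option autoImplicit false

/-!
## One request
-/

namespace Pool.Agent.SplTgo

/-- [`lt_et` for `con_nx`.] -/
theorem lt_et_nx {L : ℕ} {Y : ℕ → ℕ → ℕ} (hY : Con Y) {x y j : ℕ} (h : y ≠ x) :
    j < et L (nx Y x) y ↔ j < et L Y y ∧ x / 2 ^ (j + 1) ≠ y / 2 ^ (j + 1) := by
  rw [lt_et (con_nx hY x), lt_et hY]
  by_cases h1 : x / 2 ^ (j + 1) = y / 2 ^ (j + 1)
  · have h2 : nx Y x j (y / 2 ^ (j + 1)) = x := by
      show (if x / 2 ^ (j + 1) = y / 2 ^ (j + 1) then x else _) = x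
      rw [if_pos h1]
    rw [h2]
    constructor
    · rintro ⟨_, h3⟩
      exact absurd h3.symm h
    · rintro ⟨_, h3⟩
      exact absurd h1 h3
  · have h2 : nx Y x j (y / 2 ^ (j + 1)) = Y j (y / 2 ^ (j + 1)) := by
      show (if x / 2 ^ (j + 1) = y / 2 ^ (j + 1) then x else _) = _
      rw [if_neg h1]
    rw [h2]
    constructor
    · intro h3
      exact ⟨h3, h1⟩
    · intro h3
      exact h3.1

/-- -/
theorem et_nx_self {L : ℕ} {Y : ℕ → ℕ → ℕ} (hY : Con Y) (x : ℕ) : et L (nx Y x) x = L := by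
  refine eq_of_forall_lt_iff fun j => ?_
  rw [lt_et (con_nx hY x)]
  constructor
  · intro h
    exact h.1
  · intro h
    refine ⟨h, ?_⟩
    show (if x / 2 ^ (j + 1) = x / 2 ^ (j + 1) then x else _) = x
    rw [if_pos rfl]

/-- -/
theorem yk_nx_in {Y : ℕ → ℕ → ℕ} {x s : ℕ} (h : x / 2 ^ (lev s + 1) = s / 2 ^ (lev s + 1)) :
    yk (nx Y x) s = x := by
  show (if x / 2 ^ (lev s + 1) = s / 2 ^ (lev s + 1) then x else _) = x
  rw [if_pos h]

/-- -/
theorem yk_nx_out {Y : ℕ → ℕ → ℕ} {x s : ℕ} (h : x / 2 ^ (lev s + 1) ≠ s / 2 ^ (lev s + 1)) :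
    yk (nx Y x) s = yk Y s := by
  show (if x / 2 ^ (lev s + 1) = s / 2 ^ (lev s + 1) then x else _) = _
  rw [if_neg h]
  rfl

/-- If `x` is not in the block of length `2 ^ eta` of `y = yk Y s` then key and length
of the path of `s` do not change.  [`lev s + 1 ≤ eta`, so `x / 2 ^ (lev s + 1) ≠ y / 2 ^ (lev s + 1)
= s / 2 ^ (lev s + 1)` by `div_mono`; `et`: `lt_et_nx` and `div_mono` (all `j < eta`).] -/
theorem far_same {L : ℕ} {Y : ℕ → ℕ → ℕ} (hY : Con Y) {x s : ℕ} (h0 : 0 < s) (hs : s < 2 ^ L)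
    (h : x / 2 ^ et L Y (yk Y s) ≠ yk Y s / 2 ^ et L Y (yk Y s)) :
    yk (nx Y x) s = yk Y s ∧ et L (nx Y x) (yk Y s) = et L Y (yk Y s) := by
  have h1 := lev_lt_et hY h0 hs
  refine ⟨yk_nx_out fun h2 => h (div_mono h1 (h2.trans (yk_div hY s).symm)), ?_⟩
  have hne : yk Y s ≠ x := by
    intro h2
    exact h (by rw [h2])
  refine eq_of_forall_lt_iff fun j => ?_
  rw [lt_et_nx hY hne]
  constructor
  · intro h2
    exact h2.1
  · intro h2
    exact ⟨h2, fun h3 => h (div_mono h2 h3)⟩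

/-- **Unchanged data.**  First alternative of `Unt`: `far_same`, everything is a
function of `yk Y s`, `lev s` and `et L Y (yk Y s)`.  Second alternative: `h = hi p j` before.
(i) `x` is in the block of `s`: `x / 2 ^ hi = y / 2 ^ hi` (`div_mono`, `j + 1 ≤ hi`), so
`x / 2 ^ lo = y / 2 ^ lo`; `yk (nx Y x) s = x` and `pr K x j = pr K y j = p` (`pr_congr`);
`et L (nx Y x) x = L ≥ eta ≥ hi`, so `hh` is `hi` again; `x / 2 ^ j = y / 2 ^ j` (`lo ≤ j`), so
`s ≤ x ↔ s ≤ y` (`path_gap`); the formulas of `ra`, `rb` only contain `x / 2 ^ lo`, `x / 2 ^ hi`.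
(ii) `x` is not in the block of `s`: `yk (nx Y x) s = y`, `x / 2 ^ lo ≠ y / 2 ^ lo` (else
`x / 2 ^ (j + 1) = y / 2 ^ (j + 1) = s / 2 ^ (j + 1)`), so `x / 2 ^ hi ≠ y / 2 ^ hi`, `y ≠ x`, and by
`lt_et_nx` all levels `< hi` are below the new `et y`: `hh` is `hi` again. -/
theorem unt_same {L K : ℕ} {Y : ℕ → ℕ → ℕ} (hY : Con Y) {x s : ℕ} (h0 : 0 < s) (hs : s < 2 ^ L)
    (h : Unt L K Y x s) :
    pp K (nx Y x) s = pp K Y s ∧ hh L K (nx Y x) s = hh L K Y s ∧
      ra L K (nx Y x) s = ra L K Y s ∧ rb L K (nx Y x) s = rb L K Y s := by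
  rcases h with h | ⟨hp, hie, h⟩
  · obtain ⟨g1, g2⟩ := far_same hY h0 hs h
    have e1 : pp K (nx Y x) s = pp K Y s := by rw [pp, pp, g1]
    have e2 : hh L K (nx Y x) s = hh L K Y s := by rw [hh, hh, e1, g1, g2]
    exact ⟨e1, e2, by rw [ra, ra, e1, e2, g1], by rw [rb, rb, e1, e2, g1]⟩
  · have hj1 : lev s + 1 ≤ hi (pp K Y s) (lev s) := lt_hi _ _
    have hlo : lo (pp K Y s) (lev s) ≤ lev s := lo_le _ _
    have hyd := yk_div hY s
    have hh0 : hh L K Y s = hi (pp K Y s) (lev s) := by rw [hh]; exact min_eq_left hie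
    by_cases hx : x / 2 ^ (lev s + 1) = s / 2 ^ (lev s + 1)
    · have hxy : x / 2 ^ (lev s + 1) = yk Y s / 2 ^ (lev s + 1) := by rw [hx, hyd]
      have hxh : x / 2 ^ hi (pp K Y s) (lev s) = yk Y s / 2 ^ hi (pp K Y s) (lev s) :=
        div_mono hj1 hxy
      have hxl : x / 2 ^ lo (pp K Y s) (lev s) = yk Y s / 2 ^ lo (pp K Y s) (lev s) := by
        rcases h with h | h
        · exact h
        · exact absurd hxh h
      have g1 : yk (nx Y x) s = x := yk_nx_in hx
      have e1 : pp K (nx Y x) s = pp K Y s := by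
        rw [pp, g1]
        exact pr_congr (y := yk Y s) hp hxl
      have e2 : hh L K (nx Y x) s = hh L K Y s := by
        rw [hh0, hh, e1, g1, et_nx_self hY x]
        exact min_eq_left (hie.trans et_le)
      have e3 : x / 2 ^ lev s = yk Y s / 2 ^ lev s := div_mono hlo hxl
      have e4 : s ≤ x ↔ s ≤ yk Y s := by
        have hpos : 0 < 2 ^ lev s := by positivity
        rcases path_gap h0 hx with ⟨a1, -, a3⟩ | ⟨a1, -, a3⟩
        · rcases path_gap h0 hyd with ⟨b1, -, b3⟩ | ⟨b1, -, b3⟩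
          · exact ⟨fun _ => b1, fun _ => a1⟩
          · rw [e3] at a3
            rw [add_mul, one_mul] at b3
            omega
        · rcases path_gap h0 hyd with ⟨b1, -, b3⟩ | ⟨b1, -, b3⟩
          · rw [e3, add_mul, one_mul] at a3
            omega
          · constructor <;> intro c <;> omega
      refine ⟨e1, e2, ?_, ?_⟩
      · rw [ra, ra, e1, e2, g1, hh0, hxl, hxh, if_neg (not_le.mpr hp), if_neg (not_le.mpr hp)]
        by_cases c : s ≤ yk Y s
        · rw [if_pos c, if_pos (e4.2 c)]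
        · rw [if_neg c, if_neg (fun c' => c (e4.1 c'))]
      · rw [rb, rb, e1, e2, g1, hh0, hxl, hxh]
        by_cases c : s ≤ yk Y s
        · rw [if_pos (⟨e4.2 c, hp⟩ : s ≤ x ∧ pp K Y s < K),
            if_pos (⟨c, hp⟩ : s ≤ yk Y s ∧ pp K Y s < K)]
        · rw [if_neg (fun c' : s ≤ x ∧ pp K Y s < K => c (e4.1 c'.1)),
            if_neg (fun c' : s ≤ yk Y s ∧ pp K Y s < K => c c'.1)]
    · have g1 : yk (nx Y x) s = yk Y s := yk_nx_out hx
      have hxl : x / 2 ^ lo (pp K Y s) (lev s) ≠ yk Y s / 2 ^ lo (pp K Y s) (lev s) := by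
        intro c
        exact hx ((div_mono (by omega) c).trans hyd)
      have hxh : x / 2 ^ hi (pp K Y s) (lev s) ≠ yk Y s / 2 ^ hi (pp K Y s) (lev s) := by
        rcases h with h | h
        · exact absurd h hxl
        · exact h
      have hne : yk Y s ≠ x := by
        intro c
        exact hxl (by rw [c])
      have e1 : pp K (nx Y x) s = pp K Y s := by rw [pp, pp, g1]
      have e2 : hh L K (nx Y x) s = hh L K Y s := by
        rw [hh0, hh, e1, g1]
        refine min_eq_left ?_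
        have g2 : hi (pp K Y s) (lev s) - 1 < et L (nx Y x) (yk Y s) := by
          rw [lt_et_nx hY hne]
          refine ⟨by omega, ?_⟩
          rw [Nat.sub_add_cancel (by omega)]
          exact hxh
        omega
      exact ⟨e1, e2, by rw [ra, ra, e1, e2, g1], by rw [rb, rb, e1, e2, g1]⟩

/-- **The gaps inside are not touched.**  `r ≠ s` in the region of `s`
(`region_inside`); `z = yk Y r`.
(A) `x / 2 ^ eta ≠ y / 2 ^ eta`.  If `z = y`: first alternative.  Otherwise there is `i` with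
`lev r < i < h ≤ eta`, `r / 2 ^ (i + 1) = y / 2 ^ (i + 1)`, `r / 2 ^ i ≠ y / 2 ^ i`; by `om_hang`
`et z ≤ i`; `z / 2 ^ (i + 1) = r / 2 ^ (i + 1) = y / 2 ^ (i + 1)` (`yk_div`, `div_mono`).  If
`x / 2 ^ et z = z / 2 ^ et z` then `x / 2 ^ eta = z / 2 ^ eta = y / 2 ^ eta`: contradiction.  So
the first alternative holds for `r`.
(B) `p < K`, `hi ≤ eta` and (`x / 2 ^ lo = y / 2 ^ lo` or `x / 2 ^ hi ≠ y / 2 ^ hi`).  If `z = y`,
`pp r < p`, `hi r ≤ hi s`, `lo s ≤ lo r`: second alternative for `r` by `div_mono`.  Otherwise `i`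
as before, `lo ≤ i`, `et z ≤ i`.  If `x / 2 ^ et z = z / 2 ^ et z` then
`x / 2 ^ i = z / 2 ^ i = r / 2 ^ i ≠ y / 2 ^ i` and `x / 2 ^ (i + 1) = y / 2 ^ (i + 1)`: both
alternatives are impossible by `div_mono` (`lo ≤ i`, `i + 1 ≤ hi`).  So the first alternative holds
for `r`. -/
theorem unt_inside {L K : ℕ} {Y : ℕ → ℕ → ℕ} (hY : Con Y) (hK : L ≤ 2 ^ K) {x s r : ℕ}
    (h0 : 0 < s) (hs : s < 2 ^ L) (h : Unt L K Y x s) (h1 : ra L K Y s < r)
    (h2 : r < rb L K Y s) : Unt L K Y x r := by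
  have hh1 : hh L K Y s ≤ hi (pp K Y s) (lev s) := min_le_left _ _
  have hh2 : hh L K Y s ≤ et L Y (yk Y s) := min_le_right _ _
  rcases region_inside hY hK h0 hs h1 h2 with rfl | ⟨-, ⟨hk, hpp⟩ | ⟨i, hi1, hi2, hi3, hi4, hi5⟩⟩
  · exact h
  · rcases h with h | ⟨hp, hhi, hx⟩
    · left
      rw [hk]
      exact h
    · right
      rw [hk]
      rcases hpp with hpp | ⟨hq1, hq2, hq3⟩
      · omega
      · refine ⟨by omega, by omega, ?_⟩
        rcases hx with hx | hx
        · left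
          exact div_mono hq3 hx
        · right
          intro he
          exact hx (div_mono hq2 he)
  · have he1 := (om_hang hY hi1 hi3 hi4 hi5).1
    have hz1 : yk Y r / 2 ^ (i + 1) = r / 2 ^ (i + 1) := div_mono (by omega) (yk_div hY r)
    have hz2 : yk Y r / 2 ^ i = r / 2 ^ i := div_mono (by omega) (yk_div hY r)
    left
    intro he
    have hx1 : x / 2 ^ i = r / 2 ^ i := (div_mono he1 he).trans hz2
    have hx2 : x / 2 ^ (i + 1) = yk Y s / 2 ^ (i + 1) :=
      ((div_mono (by omega) he).trans hz1).trans hi4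
    rcases h with h | ⟨hp, hhi, hx⟩
    · exact h (div_mono (by omega) hx2)
    · rcases hx with hx | hx
      · have hlo : lo (pp K Y s) (lev s) ≤ i := by omega
        exact hi5 (hx1.symm.trans (div_mono hlo hx))
      · exact hx (div_mono (by omega) hx2)

/-- **The request is not in the region.**  If `x / 2 ^ h ≠ y / 2 ^ h` then `x` is not in
the block of `y` of length `2 ^ h`: `region_sub`.  This is the case in (A) (`h ≤ eta`, `div_mono`)
and in (B) if `x / 2 ^ hi ≠ y / 2 ^ hi` (`h = hi`).  If `x / 2 ^ lo = y / 2 ^ lo` (`p < K`): for a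
left gap `rb = y / 2 ^ lo * 2 ^ lo = x / 2 ^ lo * 2 ^ lo ≤ x`; for a right gap
`x < (x / 2 ^ lo + 1) 2 ^ lo = ra`. -/
theorem unt_out {L K : ℕ} {Y : ℕ → ℕ → ℕ} (hY : Con Y) {x s : ℕ} (h0 : 0 < s) (hs : s < 2 ^ L)
    (h : Unt L K Y x s) : x < ra L K Y s ∨ rb L K Y s ≤ x := by
  have hh1 : hh L K Y s ≤ hi (pp K Y s) (lev s) := min_le_left _ _
  have hh2 : hh L K Y s ≤ et L Y (yk Y s) := min_le_right _ _
  obtain ⟨hr1, hr2⟩ := region_sub (K := K) hY h0 hs
  have key : x / 2 ^ hh L K Y s ≠ yk Y s / 2 ^ hh L K Y s →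
      x < ra L K Y s ∨ rb L K Y s ≤ x := by
    intro hne
    rcases lt_or_gt_of_ne hne with hlt | hgt
    · left
      have h3 : x < (x / 2 ^ hh L K Y s + 1) * 2 ^ hh L K Y s :=
        Nat.lt_mul_of_div_lt (Nat.lt_succ_self _) (by positivity)
      have h4 : (x / 2 ^ hh L K Y s + 1) * 2 ^ hh L K Y s ≤
          yk Y s / 2 ^ hh L K Y s * 2 ^ hh L K Y s := Nat.mul_le_mul_right _ hlt
      omega
    · right
      have h3 : x / 2 ^ hh L K Y s * 2 ^ hh L K Y s ≤ x := Nat.div_mul_le_self _ _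
      have h4 : (yk Y s / 2 ^ hh L K Y s + 1) * 2 ^ hh L K Y s ≤
          x / 2 ^ hh L K Y s * 2 ^ hh L K Y s := Nat.mul_le_mul_right _ hgt
      omega
  rcases h with h | ⟨hp, hhi, hx | hx⟩
  · exact key (fun he => h (div_mono hh2 he))
  · by_cases hsy : s ≤ yk Y s
    · right
      have : rb L K Y s = yk Y s / 2 ^ lo (pp K Y s) (lev s) * 2 ^ lo (pp K Y s) (lev s) := by
        unfold rb
        rw [if_pos ⟨hsy, hp⟩]
      rw [this, ← hx]
      exact Nat.div_mul_le_self _ _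
    · left
      have : ra L K Y s = (yk Y s / 2 ^ lo (pp K Y s) (lev s) + 1) *
          2 ^ lo (pp K Y s) (lev s) := by
        unfold ra
        rw [if_neg hsy, if_neg (by omega)]
      rw [this, ← hx]
      exact Nat.lt_mul_of_div_lt (Nat.lt_succ_self _) (by positivity)
  · have : hh L K Y s = hi (pp K Y s) (lev s) := min_eq_left hhi
    apply key
    rw [this]
    exact hx

/-- There are at most two top cuts.  [The levels `j < 2 ^ K` with `K ≤ pr K y j` are
determined by the bit: `pr_cases`: no lower level has the same bit.] -/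
theorem cnt_top (K y : ℕ) :
    ((Finset.range (2 ^ K)).filter (fun j => K ≤ pr K y j)).card ≤ 2 := by
  have h : ((Finset.range (2 ^ K)).filter (fun j => K ≤ pr K y j)).card ≤
      (Finset.univ : Finset Bool).card := by
    apply Finset.card_le_card_of_injOn (fun j => y.testBit j)
    · intro j _
      exact Finset.mem_coe.2 (Finset.mem_univ _)
    · intro j hj j' hj' hb
      rw [Finset.mem_coe, Finset.mem_filter, Finset.mem_range] at hj hj'
      have hb' : y.testBit j = y.testBit j' := hb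
      rcases pr_cases (y := y) hj.1 with h1 | ⟨_, h1⟩
      · omega
      rcases pr_cases (y := y) hj'.1 with h2 | ⟨_, h2⟩
      · omega
      rcases lt_trichotomy j j' with h3 | h3 | h3
      · exact absurd hb' (h2 j h3)
      · exact h3
      · exact absurd hb'.symm (h1 j' h3)
  simpa using h

/-- The map `j ↦ (pr K y j, bit j)` is injective by `pr_inj`. -/
theorem cnt_mid (K y e : ℕ) :
    ((Finset.range (2 ^ K)).filter (fun j => pr K y j < K ∧
      j / 2 ^ (pr K y j + 1) = e / 2 ^ (pr K y j + 1))).card ≤ 2 * K := by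
  have h : ((Finset.range (2 ^ K)).filter (fun j => pr K y j < K ∧
      j / 2 ^ (pr K y j + 1) = e / 2 ^ (pr K y j + 1))).card ≤
      ((Finset.univ : Finset Bool) ×ˢ Finset.range K).card := by
    apply Finset.card_le_card_of_injOn (fun j => (y.testBit j, pr K y j))
    · intro j hj
      rw [Finset.mem_coe, Finset.mem_filter] at hj
      rw [Finset.mem_coe, Finset.mem_product]
      exact ⟨Finset.mem_univ _, Finset.mem_range.2 hj.2.1⟩
    · intro j hj j' hj' hb
      rw [Finset.mem_coe, Finset.mem_filter, Finset.mem_range] at hj hj'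
      have hb1 : y.testBit j = y.testBit j' := (Prod.mk.inj hb).1
      have hb2 : pr K y j = pr K y j' := (Prod.mk.inj hb).2
      apply pr_inj hj.1 hj'.1 hb1 hb2
      intro _
      rw [hj.2.2, hb2, hj'.2.2]
  simpa using h

theorem key_of {L : ℕ} {Y : ℕ → ℕ → ℕ} (hY : Con Y) {x y : ℕ} (hne : y ≠ x)
    (h : x / 2 ^ et L Y y = y / 2 ^ et L Y y) :
    ∃ i, i < L ∧ i < et L Y y ∧ x / 2 ^ (i + 1) = y / 2 ^ (i + 1) ∧ x / 2 ^ i ≠ y / 2 ^ i ∧
      Y i (x / 2 ^ (i + 1)) = y := by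
  classical
  have hex : ∃ k, x / 2 ^ k = y / 2 ^ k := ⟨_, h⟩
  have h1 := Nat.find_spec hex
  have h2 := Nat.find_min' hex h
  have h3 : Nat.find hex ≠ 0 := by
    intro h0
    rw [h0] at h1
    simp only [pow_zero, Nat.div_one] at h1
    exact hne h1.symm
  obtain ⟨i, hi⟩ := Nat.exists_eq_succ_of_ne_zero h3
  have h4 : x / 2 ^ i ≠ y / 2 ^ i := Nat.find_min hex (by omega)
  rw [hi] at h1
  have h5 : i < et L Y y := by omega
  obtain ⟨h6, h7⟩ := (lt_et hY).1 h5
  have h1' : x / 2 ^ (i + 1) = y / 2 ^ (i + 1) := h1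
  exact ⟨i, h6, h5, h1', h4, by rw [h1']; exact h7⟩

/-- the levels -/
private noncomputable def TQ_J (K y e e' : ℕ) : Finset ℕ :=
  (Finset.range (2 ^ K)).filter (fun j => K ≤ pr K y j) ∪
    ((Finset.range (2 ^ K)).filter (fun j => pr K y j < K ∧
      j / 2 ^ (pr K y j + 1) = e / 2 ^ (pr K y j + 1)) ∪
    (Finset.range (2 ^ K)).filter (fun j => pr K y j < K ∧
      j / 2 ^ (pr K y j + 1) = e' / 2 ^ (pr K y j + 1)))

private theorem TQ_card (K y e e' : ℕ) : (TQ_J K y e e').card ≤ 4 * K + 2 := by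
  unfold TQ_J
  have h1 := cnt_top K y
  have h2 := cnt_mid K y e
  have h3 := cnt_mid K y e'
  refine (Finset.card_union_le _ _).trans ?_
  have h4 := Finset.card_union_le
    ((Finset.range (2 ^ K)).filter (fun j => pr K y j < K ∧
      j / 2 ^ (pr K y j + 1) = e / 2 ^ (pr K y j + 1)))
    ((Finset.range (2 ^ K)).filter (fun j => pr K y j < K ∧
      j / 2 ^ (pr K y j + 1) = e' / 2 ^ (pr K y j + 1)))
  omega

theorem cnt_unt {L K : ℕ} {Y : ℕ → ℕ → ℕ} (hY : Con Y) (hK : L ≤ 2 ^ K) (x : ℕ) (S : Finset ℕ)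
    (hS : ∀ s ∈ S, 0 < s ∧ s < 2 ^ L ∧ ¬ Unt L K Y x s) :
    S.card ≤ (4 * K + 2) *
      (((Finset.range L).filter (fun j => Y j (x / 2 ^ (j + 1)) / 2 ^ j ≠ x / 2 ^ j)).card + 1) := by
  classical
  set A := (Finset.range L).filter (fun j => Y j (x / 2 ^ (j + 1)) / 2 ^ j ≠ x / 2 ^ j) with hA
  set F : ℕ → ℕ → Finset ℕ := fun y i => (TQ_J K y (et L Y y) i).image (gp y) with hF
  have hFc : ∀ y i, (F y i).card ≤ 4 * K + 2 := fun y i =>
    Finset.card_image_le.trans (TQ_card _ _ _ _)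
  have hsub : S ⊆ F x 0 ∪ A.biUnion (fun i => F (Y i (x / 2 ^ (i + 1))) i) := by
    intro s hs
    obtain ⟨h0, hlt, hu⟩ := hS s hs
    unfold Unt at hu
    push Not at hu
    obtain ⟨hu1, hu2⟩ := hu
    have hlev : lev s < et L Y (yk Y s) := lev_lt_et hY h0 hlt
    have hlL : lev s < 2 ^ K := (lev_lt h0 hlt).trans_le hK
    have hgp := gp_yk hY h0
    -- the level of `s` is in the set
    have key : ∀ i, (yk Y s ≠ x → x / 2 ^ (i + 1) = yk Y s / 2 ^ (i + 1) ∧
        x / 2 ^ i ≠ yk Y s / 2 ^ i) → s ∈ F (yk Y s) i := by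
      intro i hi
      refine Finset.mem_image.2 ⟨lev s, ?_, hgp⟩
      unfold TQ_J
      rw [Finset.mem_union, Finset.mem_union, Finset.mem_filter, Finset.mem_filter,
        Finset.mem_filter, Finset.mem_range]
      rcases Nat.lt_or_ge (pp K Y s) K with hp | hp
      · right
        rcases Nat.lt_or_ge (et L Y (yk Y s)) (SplTgo.hi (pp K Y s) (lev s)) with he | he
        · left
          refine ⟨hlL, hp, ?_⟩
          exact (mem_iff.1 ⟨(lo_le _ _).trans hlev.le, he⟩).symm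
        · right
          refine ⟨hlL, hp, ?_⟩
          obtain ⟨g1, g2⟩ := hu2 hp he
          have hne : yk Y s ≠ x := fun h => g1 (by rw [h])
          obtain ⟨i1, i2⟩ := hi hne
          refine ((mem_iff (p := pp K Y s) (j := lev s) (i := i)).1 ⟨?_, ?_⟩).symm
          · by_contra hc
            exact g1 (div_mono (by omega : i + 1 ≤ lo (pp K Y s) (lev s)) i1)
          · by_contra hc
            exact i2 (div_mono (by omega : SplTgo.hi (pp K Y s) (lev s) ≤ i) g2)
      · exact Or.inl ⟨hlL, hp⟩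
    by_cases hx : yk Y s = x
    · refine Finset.mem_union_left _ ?_
      have := key 0 (fun h => absurd hx h)
      rwa [hx] at this
    · obtain ⟨i, i1, i2, i3, i4, i5⟩ := key_of hY hx hu1
      refine Finset.mem_union_right _ (Finset.mem_biUnion.2 ⟨i, ?_, ?_⟩)
      · rw [hA, Finset.mem_filter, Finset.mem_range]
        exact ⟨i1, by rw [i5]; exact fun h => i4 h.symm⟩
      · rw [i5]
        exact key i (fun _ => ⟨i3, i4⟩)
  refine (Finset.card_le_card hsub).trans ?_
  refine (Finset.card_union_le _ _).trans ?_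
  have h1 : (A.biUnion (fun i => F (Y i (x / 2 ^ (i + 1))) i)).card ≤ A.card * (4 * K + 2) :=
    Finset.card_biUnion_le_card_mul _ _ _ (fun i _ => hFc _ _)
  have h2 := hFc x 0
  have h3 : (4 * K + 2) * (A.card + 1) = A.card * (4 * K + 2) + (4 * K + 2) := by ring
  omega

end Pool.Agent.SplTgo
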