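import Pool.Agent.SplTgo.Step
import Pool.Agent.SplAll.Defs

set_option autoImplicit false

/-!
## The block process

The common structure `BP` (keys `1, ..., n`, gap `s` between the keys `s` and `s + 1`; the key `x`
is the key `x - 1` of this library).
-/

namespace Pool.Agent.SplTgo

open Pool.Agent.SplAll

/-- A block process for the requests `X t`, `t < m`, to the keys `1, ..., n`, of height at most `H`. -/
structure BP (n m H : ℕ) (X : ℕ → ℕ) where
  /-- the height of a gap -/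
  om : ℕ → ℕ → ℕ
  /-- the touched gaps -/
  tau : ℕ → Finset ℕ
  le : ∀ t s, 1 ≤ s → s < n → 1 ≤ om t s ∧ om t s ≤ H
  ends : ∀ t, om t 0 = H + 1 ∧ om t n = H + 1
  sep : ∀ t, t ≤ m → ∀ s s', 1 ≤ s → s < s' → s' < n → om t s = om t s' →
    ∃ r, s < r ∧ r < s' ∧ om t s < om t r
  unt : ∀ t, t < m → ∀ s, 1 ≤ s → s < n → s ∉ tau t → ∃ a b, a < s ∧ s < b ∧ b ≤ n ∧
    (X t ≤ a ∨ b < X t) ∧ om t s < om t a ∧ om t s < om t b ∧
    om (t + 1) s < om (t + 1) a ∧ om (t + 1) s < om (t + 1) b ∧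
    ∀ r, a < r → r < b → om (t + 1) r = om t r ∧ (r = s ∨ om t r < om t s) ∧ r ∉ tau t

private theorem TR_st (Y : ℕ → ℕ → ℕ) (X : ℕ → ℕ) (t : ℕ) :
    st Y X (t + 1) = st (nx Y (X 0)) (fun s => X (s + 1)) t := by
  induction t with
  | zero => rfl
  | succ t ih =>
    rw [st, ih]
    rfl

private theorem TR_dv (x j : ℕ) : x / 2 ^ j / 2 = x / 2 ^ (j + 1) := by
  rw [Nat.div_div_eq_div_mul, pow_succ]

private theorem TR_upd (Y : ℕ → ℕ → ℕ) (x : ℕ) :
    upd 2 (fun j i => Y j i / 2 ^ j) x = fun j i => nx Y x j i / 2 ^ j := by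
  funext j i
  unfold upd nx
  rw [TR_dv]
  by_cases h : i = x / 2 ^ (j + 1)
  · rw [if_pos h, if_pos h.symm]
  · rw [if_neg h, if_neg (Ne.symm h)]

theorem SW_eq (l : ℕ) (Y : ℕ → ℕ → ℕ) (Z : List ℕ) :
    SW 2 l (fun j i => Y j i / 2 ^ j) Z =
      ∑ t ∈ Finset.range Z.length, ((Finset.range l).filter (fun j =>
        st Y (fun s => Z.getD s 0) t j (Z.getD t 0 / 2 ^ (j + 1)) / 2 ^ j ≠
          Z.getD t 0 / 2 ^ j)).card := by
  induction Z generalizing Y with
  | nil => simp [SW]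
  | cons x Z ih =>
    rw [SW, TR_upd, ih, List.length_cons, Finset.sum_range_succ', add_comm]
    congr 1
    · refine Finset.sum_congr rfl fun t _ => ?_
      rw [TR_st]
      rfl
    · unfold sw
      congr 1
      refine Finset.filter_congr fun j _ => ?_
      rw [TR_dv]
      rfl

theorem unt_all {L K : ℕ} {Y : ℕ → ℕ → ℕ} (hY : Con Y) (hK : L ≤ 2 ^ K) {x s : ℕ}
    (h0 : 0 < s) (hs : s < 2 ^ L) (h : Unt L K Y x s) :
    ∃ a b, a < s ∧ s < b ∧ b ≤ 2 ^ L ∧ (x < a ∨ b ≤ x) ∧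
      (a = 0 ∨ om L K Y s < om L K Y a ∧ om L K (nx Y x) s < om L K (nx Y x) a) ∧
      (b = 2 ^ L ∨ om L K Y s < om L K Y b ∧ om L K (nx Y x) s < om L K (nx Y x) b) ∧
      ∀ r, a < r → r < b → om L K (nx Y x) r = om L K Y r ∧
        (r = s ∨ om L K Y r < om L K Y s) ∧ Unt L K Y x r := by
  obtain ⟨e1, e2, e3⟩ := region_mem hY hK h0 hs
  obtain ⟨u1, u2, u3, u4⟩ := unt_same (K := K) hY h0 hs h
  refine ⟨ra L K Y s, rb L K Y s, e1, e2, e3, unt_out hY h0 hs h, ?_, ?_, ?_⟩
  · rcases region_ra hY hK h0 hs with g | g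
    · exact Or.inl g
    · rcases region_ra (con_nx hY x) hK h0 hs with g' | g'
      · rw [u3] at g'
        exact Or.inl g'
      · rw [u3] at g'
        exact Or.inr ⟨g, g'⟩
  · rcases region_rb hY hK h0 hs with g | g
    · exact Or.inl g
    · rcases region_rb (con_nx hY x) hK h0 hs with g' | g'
      · rw [u4] at g'
        exact Or.inl g'
      · rw [u4] at g'
        exact Or.inr ⟨g, g'⟩
  · intro r r1 r2
    have hu := unt_inside hY hK h0 hs h r1 r2
    obtain ⟨v1, v2, _, _⟩ := unt_same (K := K) hY (by omega) (by omega) hu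
    refine ⟨by unfold om; rw [v1, v2], ?_, hu⟩
    rcases region_inside hY hK h0 hs r1 r2 with g | g
    · exact Or.inl g
    · exact Or.inr g.1

private theorem TT_unt {L K n : ℕ} {Y : ℕ → ℕ → ℕ} {x s : ℕ} (hY : Con Y) (hK : L ≤ 2 ^ K)
    (hn : n ≤ 2 ^ L) (hx : x < n) (h0 : 1 ≤ s) (hs : s < n) (h : Unt L K Y x s) (H : ℕ)
    (hH : ∀ Y', Con Y' → ∀ r, 1 ≤ r → r < n → om L K Y' r ≤ H) (f g : ℕ → ℕ)
    (hf : ∀ r, f r = if r = 0 ∨ n ≤ r then H + 1 else om L K Y r)
    (hg : ∀ r, g r = if r = 0 ∨ n ≤ r then H + 1 else om L K (nx Y x) r) (S : Finset ℕ)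
    (hS : ∀ r, r ∈ S ↔ 1 ≤ r ∧ r < n ∧ ¬ Unt L K Y x r) :
    ∃ a b, a < s ∧ s < b ∧ b ≤ n ∧ (x + 1 ≤ a ∨ b < x + 1) ∧ f s < f a ∧ f s < f b ∧
      g s < g a ∧ g s < g b ∧
      ∀ r, a < r → r < b → g r = f r ∧ (r = s ∨ f r < f s) ∧ r ∉ S := by
  obtain ⟨a, b, h1, h2, h3, h4, h5, h6, h7⟩ := unt_all hY hK h0 (hs.trans_le hn) h
  have fs : f s = om L K Y s := by rw [hf, if_neg (by omega)]
  have gs : g s = om L K (nx Y x) s := by rw [hg, if_neg (by omega)]
  have b1 := hH Y hY s h0 hs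
  have b2 := hH _ (con_nx hY x) s h0 hs
  refine ⟨a, min b n, h1, lt_min h2 hs, min_le_right _ _, ?_, ?_, ?_, ?_, ?_, ?_⟩
  · rcases h4 with h4 | h4
    · left; omega
    · right
      have := min_le_left b n
      omega
  · rw [fs, hf]
    split_ifs with ha
    · omega
    · rcases h5 with h5 | h5
      · omega
      · exact h5.1
  · rw [fs, hf]
    split_ifs with ha
    · omega
    · have : min b n = b := by omega
      rw [this]
      rcases h6 with h6 | h6
      · omega
      · exact h6.1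
  · rw [gs, hg]
    split_ifs with ha
    · omega
    · rcases h5 with h5 | h5
      · omega
      · exact h5.2
  · rw [gs, hg]
    split_ifs with ha
    · omega
    · have : min b n = b := by omega
      rw [this]
      rcases h6 with h6 | h6
      · omega
      · exact h6.2
  · intro r hr1 hr2
    have hr3 : r < b ∧ r < n := by omega
    obtain ⟨g1, g2, g3⟩ := h7 r hr1 hr3.1
    have fr : f r = om L K Y r := by rw [hf, if_neg (by omega)]
    have gr : g r = om L K (nx Y x) r := by rw [hg, if_neg (by omega)]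
    rw [fr, gr, fs]
    refine ⟨g1, g2, fun hc => ?_⟩
    exact ((hS r).1 hc).2.2 g3

theorem tango {L K n : ℕ} (hK : L ≤ 2 ^ K) (hn : n ≤ 2 ^ L) (X : List ℕ)
    (hX : ∀ x ∈ X, 1 ≤ x ∧ x ≤ n) :
    ∃ B : BP n X.length (L * (K + 3) + K + 1) (fun t => X.getD t 0),
      ∑ t ∈ Finset.range X.length, (B.tau t).card ≤
        (4 * K + 2) * (SW 2 L (fun _ i => 2 * i) (X.map (fun x => x - 1)) + X.length) := by
  classical
  set Z := X.map (fun x => x - 1) with hZ
  set H := L * (K + 3) + K + 1 with hHd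
  set Y0 : ℕ → ℕ → ℕ := fun j i => i * 2 ^ (j + 1) with hY0
  set Y : ℕ → ℕ → ℕ → ℕ := fun t => st Y0 (fun s => Z.getD s 0) t with hYd
  have hC : ∀ t, Con (Y t) := fun t => con_st con_init _ t
  have hH : ∀ Y', Con Y' → ∀ r, 1 ≤ r → r < n → om L K Y' r ≤ H := by
    intro Y' hY' r hr1 hr2
    have e1 : om L K Y' r = hh L K Y' r * (K + 3) + pp K Y' r := rfl
    have e2 : hh L K Y' r ≤ L := (min_le_right _ _).trans et_le
    have e3 : hh L K Y' r * (K + 3) ≤ L * (K + 3) := Nat.mul_le_mul_right _ e2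
    have e4 : pp K Y' r ≤ K + 1 := pp_le
    omega
  have hlt : ∀ t, t < X.length → Z.getD t 0 + 1 = X.getD t 0 ∧ Z.getD t 0 < n := by
    intro t ht
    have ht' : t < Z.length := by rw [hZ, List.length_map]; exact ht
    have e1 : Z.getD t 0 = X[t] - 1 := by
      rw [List.getD_eq_getElem _ _ ht']
      simp [hZ]
    have e2 : X.getD t 0 = X[t] := List.getD_eq_getElem _ _ ht
    have e3 := hX X[t] (List.getElem_mem ht)
    omega
  let B : BP n X.length H (fun t => X.getD t 0) :=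
    { om := fun t s => if s = 0 ∨ n ≤ s then H + 1 else om L K (Y t) s
      tau := fun t => (Finset.Ico 1 n).filter (fun s => ¬ Unt L K (Y t) (Z.getD t 0) s)
      le := by
        intro t s h1 h2
        rw [if_neg (by omega)]
        refine ⟨?_, hH _ (hC t) s h1 h2⟩
        have := om_ge K (hC t) h1 (h2.trans_le hn)
        have h3 : 1 ≤ (lev s + 1) * (K + 3) := Nat.mul_pos (by omega) (by omega)
        omega
      ends := by
        intro t
        exact ⟨by rw [if_pos (Or.inl rfl)], by rw [if_pos (Or.inr le_rfl)]⟩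
      sep := by
        intro t _ s s' h1 h2 h3 he
        rw [if_neg (by omega), if_neg (by omega)] at he
        obtain ⟨r, g1, g2, g3⟩ := om_sep (hC t) hK h1 h2 (h3.trans_le hn) he
        refine ⟨r, g1, g2, ?_⟩
        rw [if_neg (by omega), if_neg (by omega)]
        exact g3
      unt := by
        intro t ht s h1 h2 h3
        obtain ⟨e1, e2⟩ := hlt t ht
        have hu : Unt L K (Y t) (Z.getD t 0) s := by
          by_contra hc
          exact h3 (Finset.mem_filter.2 ⟨Finset.mem_Ico.2 ⟨h1, h2⟩, hc⟩)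
        rw [← e1]
        exact TT_unt (hC t) hK hn e2 h1 h2 hu H hH _ _ (fun r => rfl) (fun r => rfl) _
          (fun r => by rw [Finset.mem_filter, Finset.mem_Ico, and_assoc]) }
  refine ⟨B, ?_⟩
  have hsw := SW_eq L Y0 Z
  have e0 : (fun j i => Y0 j i / 2 ^ j) = fun (_ i : ℕ) => 2 * i := by
    funext j i
    rw [hY0]
    simp only
    rw [pow_succ, ← mul_assoc, mul_comm (i * 2 ^ j) 2, ← mul_assoc,
      Nat.mul_div_cancel _ (by positivity)]
  rw [e0] at hsw
  have hlen : Z.length = X.length := by rw [hZ, List.length_map]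
  rw [hsw, hlen]
  have h1 : ∀ t ∈ Finset.range X.length, (B.tau t).card ≤ (4 * K + 2) *
      (((Finset.range L).filter (fun j => Y t j (Z.getD t 0 / 2 ^ (j + 1)) / 2 ^ j ≠
        Z.getD t 0 / 2 ^ j)).card + 1) := by
    intro t _
    refine cnt_unt (hC t) hK _ _ fun s hs => ?_
    rw [Finset.mem_filter, Finset.mem_Ico] at hs
    exact ⟨hs.1.1, hs.1.2.trans_le hn, hs.2⟩
  refine (Finset.sum_le_sum h1).trans ?_
  rw [← Finset.mul_sum, Finset.sum_add_distrib, Finset.sum_const, Finset.card_range]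
  simp only [smul_eq_mul, mul_one]
  exact le_rfl

end Pool.Agent.SplTgo
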